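import Pool.Agent.Lib.MP_67d7ce_nt.Main

/-! Choice of the parameters. -/

namespace Pool.Agent.PL

open Finset WithZero Pool.Agent.Carl Polynomial
open Pool.Agent.CarlAn (v_mul_le v_pow_eq v_pow_le one_le_qpow)

set_option linter.unusedSectionVars false

variable {F : Type} [Field F] [Fintype F]

theorem exists_big (K : ℕ) : ∃ E : ℕ, K ≤ E ∧ K * (E ^ 2 + 1) < 3 ^ E := by
  refine ⟨3 * (10 * K + 1), by omega, ?_⟩
  set n := 10 * K + 1 with hn
  have h1 : n < 3 ^ n := Nat.lt_pow_self (by norm_num)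
  have h2 : n ^ 3 ≤ 3 ^ (3 * n) := by
    rw [mul_comm, pow_mul]
    exact Nat.pow_le_pow_left h1.le 3
  have h3 : 1 ≤ n := by omega
  have h4 : K * ((3 * n) ^ 2 + 1) ≤ 10 * K * n ^ 2 := by
    have : 1 ≤ n ^ 2 := Nat.one_le_pow _ _ h3
    nlinarith
  have h5 : 10 * K * n ^ 2 < n ^ 3 := by
    have : 0 < n ^ 2 := by positivity
    have h6 : 10 * K < n := by omega
    calc 10 * K * n ^ 2 < n * n ^ 2 := Nat.mul_lt_mul_of_pos_right h6 this
      _ = n ^ 3 := by ring
  omega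

theorem count {u n S Q E γ R M h : ℕ} (hu : n + 4 ≤ u) (hQ : u * S + 1 = Q) (hn : n ≤ E)
    (hγ : γ + u + 2 ≤ E) (hR : R ≤ 7 * E ^ 2) (hS : 3 * (u + 1) * E ^ 2 < S)
    (hM : M + n * S + R = u * S) (hh : h + 1 = u * Q) :
    2 * (S * (h + (n * Q + γ + 1) + (u + 1) + 1) + (E + 1) * ((E + 1 + n) * (u + 1) * Q)) <
      M * (h + 1) := by
  have hSQ : S ≤ Q := by nlinarith
  have h1 : (E + 1) * (E + 1 + n) ≤ 6 * E ^ 2 := by nlinarith only [hn, hγ, Nat.zero_le (γ + u)]
  have h2 : u * R ≤ 7 * (u + 1) * E ^ 2 := by nlinarith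
  have h3 : E ≤ E ^ 2 := by nlinarith
  have h4 : E ^ 2 ≤ (u + 1) * E ^ 2 := by nlinarith
  have h5 : u * n + 2 * (u + n) + 8 ≤ u * u := by
    obtain ⟨t, rfl⟩ := Nat.exists_eq_add_of_le hu
    nlinarith
  have h6 := Nat.mul_le_mul_right S h5
  have h7 := Nat.mul_le_mul_right (u + 1) h1
  have h8 : u * (M + n * S + R) = u * (u * S) := by rw [hM]
  have hA : 2 * S * (u + n) + 2 * (γ + u + 2) + 2 * ((E + 1) * (E + 1 + n) * (u + 1)) < M * u := by
    nlinarith
  have h9 := Nat.mul_lt_mul_of_pos_right hA (show 0 < Q by omega)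
  have h10 := Nat.mul_le_mul_right (γ + u + 2) hSQ
  have h11 : S * (h + 1) = S * (u * Q) := by rw [hh]
  rw [hh]
  nlinarith

theorem v_Pi0 {E : ℕ} (hE : 1 ≤ E) : Valued.v (Pi0 F E) =
    exp ((Fintype.card F : ℤ) ^ E * ((Fintype.card F : ℤ) ^ E - 1)) := by
  have h1 : ∀ k, Valued.v (∏ j ∈ range k, (TT F - yy F E j)) =
      exp ((Fintype.card F : ℤ) ^ E * ((Fintype.card F : ℤ) ^ k - 1)) := by
    intro k
    induction k with
    | zero => simp
    | succ k ih =>
      rw [Finset.prod_range_succ, map_mul, ih, Valuation.map_sub_swap, v_Ty hE, ← exp_add, uu]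
      congr 1; ring
  exact h1 E

theorem core {n : ℕ} (hn : 2 ≤ n) (hq : n + 5 ≤ Fintype.card F) (c : F) {s : LaurentSeries F}
    (hs : s ≠ 0) (hz : Valued.v (ex F s) ≤ exp ((n : ℤ) * Fintype.card F - 1))
    (C r a b : F[X]) (hC : C ≠ 0)
    (hrel : aeval (TT F) C * (Li F n (ex F s) - s) =
      th F * (aeval (TT F) r + aeval (TT F) a * zeta F n + aeval (TT F) b * Lv F n c)) :
    False := by
  obtain ⟨δ, hδ⟩ := exists_v_eq hs
  obtain ⟨m, rfl⟩ : ∃ m, n = m + 1 := ⟨n - 1, by omega⟩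
  obtain ⟨u, hu⟩ : ∃ u, Fintype.card F = u + 1 := ⟨Fintype.card F - 1, by omega⟩
  have huu : uu F = u := by rw [uu, hu]; push_cast; ring
  obtain ⟨E, hE1, hE2⟩ := exists_big (3 * (u + 1) + C.natDegree + a.natDegree + b.natDegree +
    m + δ.natAbs + 5)
  set S := ∑ j ∈ range E, Fintype.card F ^ (j + 1) + 1 with hS
  have hS1 : ∑ i ∈ range (E + 1), Fintype.card F ^ i = S := by
    rw [Finset.sum_range_succ', pow_zero]
  set Q := Fintype.card F ^ (E + 1) with hQ
  have hS2 : u * S + 1 = Q := by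
    rw [← hS1, hQ, hu, mul_comm]
    exact geom_sum_mul_add u (E + 1)
  have hS3 : 3 * (u + 1) * E ^ 2 < S := by
    have h1 : 3 ^ E ≤ Fintype.card F ^ E := Nat.pow_le_pow_left (by omega) E
    have h2 : Fintype.card F ^ E ≤ S := by rw [← hS1, Finset.sum_range_succ]; omega
    refine lt_of_le_of_lt (Nat.mul_le_mul (by omega) (Nat.le_succ _)) (hE2.trans_le (h1.trans h2))
  have hEE : E ≤ E ^ 2 := Nat.le_self_pow (by norm_num) E
  have hmE : (m + 1) * (E + 1) ≤ 2 * E ^ 2 := by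
    rw [sq, ← mul_assoc, mul_comm]; exact Nat.mul_le_mul (by omega) (by omega)
  have hES : 7 * E ^ 2 ≤ S := (Nat.mul_le_mul_right _ (by omega)).trans hS3.le
  have hnS : (m + 1) * S + 4 * S ≤ u * S := by
    rw [← add_mul]; exact Nat.mul_le_mul_right _ (by omega)
  set R := (m + 1) * (E + 1) + 2 * C.natDegree + E + m + δ.natAbs + 2 with hR
  have hR1 : R ≤ 7 * E ^ 2 := by omega
  obtain ⟨M, hM⟩ : ∃ M, M + (m + 1) * S + R = u * S := ⟨u * S - ((m + 1) * S + R), by omega⟩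
  obtain ⟨h, hh⟩ : ∃ h, h + 1 = u * Q :=
    ⟨u * Q - 1, Nat.sub_add_cancel (Nat.mul_pos (by omega) (by omega))⟩
  have hqQ : u + 1 ≤ Q := by
    rw [← hS2]; exact Nat.succ_le_succ (Nat.le_mul_of_pos_right _ (by omega))
  have hQZ : (Q : ℤ) = (Fintype.card F : ℤ) ^ (E + 1) := by rw [hQ]; push_cast; rfl
  obtain ⟨p, hp, hpd, hpc, hk⟩ := kill (F := F) (E + 1) M h ((m + 1) * Q + C.natDegree + 1)
    ((E + 1 + (m + 1)) * (u + 1)) (by omega)
    (Pi0 F (E + 1) ^ (m + 1) * aeval (TT F) C * (-TT F) ^ S * lg F (TT F) E ^ (m + 1))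
    (mul_mem (mul_mem (mul_mem (pow_mem (Pi0_mem _) _) (aeval_mem C))
      (pow_mem (neg_mem T_mem) _)) (pow_mem (lg_mem _) _))
    (by
      refine (v_mul_le (v_mul_le (v_mul_le (v_pow_eq (v_Pi0 (by omega)) _).le (v_aeval C))
        (v_pow_eq (show Valued.v (-TT F) = exp (uu F) by rw [Valuation.map_neg, v_T]) S).le)
        (v_pow_eq (v_lg E) _).le).trans (exp_le_exp.2 ?_)
      rw [← hQZ, ← hQ, huu, hu]
      have h1 : (u : ℤ) * S + 1 = Q := by exact_mod_cast hS2
      have h2 : (u : ℤ) + 1 ≤ Q := by exact_mod_cast hqQ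
      push_cast
      nlinarith only [h1, h2, Int.natCast_nonneg C.natDegree, Int.natCast_nonneg m,
        Int.natCast_nonneg u])
    (fun b v => if b then lg F (TT F) v ^ (m + 1) else Dg F (TT F) v)
    (fun b v hv => by
      have h1 : (v : ℤ) ≤ E + 1 := by exact_mod_cast hv
      have h2 := one_le_qpow (F := F) v
      have h3 := Int.natCast_nonneg m
      have h4 := Int.natCast_nonneg u
      have h5 := Int.natCast_nonneg E
      cases b
      · refine ⟨Dg_mem v, Dg_ne v, (v_Dg v).le.trans (exp_le_exp.2 ?_)⟩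
        rw [huu]; push_cast
        have : (v : ℤ) * u ≤ (E + 1 + (m + 1)) * (u + 1) :=
          mul_le_mul (by linarith only [h1, h3]) (by linarith only) h4 (by positivity)
        nlinarith only [this, h2]
      · refine ⟨pow_mem (lg_mem v) _, pow_ne_zero _ (lg_ne v),
          (v_pow_eq (v_lg v) _).le.trans (exp_le_exp.2 ?_)⟩
        rw [pow_succ]; push_cast
        generalize (Fintype.card F : ℤ) ^ v = y at *
        rw [hu]; push_cast
        have : (0 : ℤ) ≤ (E + 1) * (u + 1) * y := by positivity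
        have : (0 : ℤ) ≤ (m + 1) * (u + 1) := by positivity
        linarith)
    (by
      rw [hS1, ← hQ, hu]
      exact count (by omega) hS2 (by omega) (by omega) hR1 hS3 hM hh)
  refine contra m E S (by omega) (by omega) c hδ hz C r a b hC hS p hp (fun i => ⟨(hpc i).1,
    (hpc i).2.trans (le_of_eq ?_)⟩) (hk false) (hk true) (by omega) (by omega) ?_ hrel
  · have : (h : ℤ) + 1 = u * Q := by exact_mod_cast hh
    rw [← hQZ, huu]; congr 1; linarith
  · have : (m + 1) * (u + 1) ≤ E ^ 2 := by rw [sq]; exact Nat.mul_le_mul (by omega) (by omega)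
    rw [hu]; omega

end Pool.Agent.PL
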