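import Pool.Agent.Lib.MP_67d7ce_nt.Sg

/-! The series and the size of their pieces. -/

namespace Pool.Agent.PL

open Finset WithZero Pool.Agent.Carl Polynomial Filter Topology
open Pool.Agent.CarlAn (v_mul_le v_pow_eq v_pow_le v_add_eq_left summable_of_v mem_nhds_zero_iff
  one_le_qpow)

set_option linter.unusedSectionVars false

variable (F : Type) [Field F] [Fintype F]

noncomputable def ex (s : LaurentSeries F) : LaurentSeries F :=
  ∑' i : ℕ, s ^ (Fintype.card F ^ i) / Dg F (TT F) i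

noncomputable def Li (n : ℕ) (z : LaurentSeries F) : LaurentSeries F :=
  ∑' d : ℕ, z ^ (Fintype.card F ^ d) / lg F (TT F) d ^ n

noncomputable def zeta (n : ℕ) : LaurentSeries F :=
  ∑' d : ℕ, ∑ f : Fin d → F, 1 / mon F (TT F) d f ^ n

noncomputable def Lv (n : ℕ) (c : F) : LaurentSeries F :=
  ∑' d : ℕ, ∑ f : Fin d → F, algebraMap F (LaurentSeries F) (mon F c d f ^ n) / mon F (TT F) d f ^ n

noncomputable def yy (E j : ℕ) : LaurentSeries F :=
  (TT F ^ (Fintype.card F ^ j)) ^ (Fintype.card F ^ E)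

noncomputable def Pi0 (E : ℕ) : LaurentSeries F := ∏ j ∈ range E, (TT F - yy F E j)

variable {F}

theorem approx {t : ℕ → LaurentSeries F} (hs : Summable t) (N : ℤ) :
    ∀ᶠ B in atTop, Valued.v (∑' i, t i - ∑ i ∈ range B, t i) ≤ exp N := by
  have h1 : Tendsto (fun I => ∑' i, t i - ∑ i ∈ range I, t i) atTop (𝓝 0) := by
    have := (tendsto_const_nhds (x := ∑' i, t i)).sub hs.hasSum.tendsto_sum_nat
    simpa using this
  exact h1.eventually ((mem_nhds_zero_iff F {x | Valued.v x ≤ exp N}).2 ⟨N, subset_rfl⟩)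

theorem lt_qpow (i : ℕ) : (i : ℤ) < (Fintype.card F : ℤ) ^ i := by
  have : i < Fintype.card F ^ i := Nat.lt_pow_self Fintype.one_lt_card
  exact_mod_cast this

theorem v_div_le {a b : LaurentSeries F} {x y : ℤ} (ha : Valued.v a ≤ exp x)
    (hb : Valued.v b = exp y) : Valued.v (a / b) ≤ exp (x - y) := by
  rw [map_div₀, hb, div_le_iff₀ exp_pos, ← exp_add, sub_add_cancel]; exact ha

theorem v_tau {s : LaurentSeries F} {δ : ℤ} (h : Valued.v s = exp δ) (i : ℕ) :
    Valued.v (s ^ (Fintype.card F ^ i) / Dg F (TT F) i) =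
      exp ((δ - i * uu F) * (Fintype.card F : ℤ) ^ i) := by
  rw [map_div₀, v_pow_eq h, v_Dg, ← exp_sub]
  congr 1; push_cast; ring

theorem summable_ex (s : LaurentSeries F) :
    Summable fun i : ℕ => s ^ (Fintype.card F ^ i) / Dg F (TT F) i := by
  by_cases hs : s = 0
  · simp [hs, zero_pow (q_pos (F := F) _).ne', summable_zero]
  obtain ⟨δ, hδ⟩ := exists_v_eq hs
  refine summable_of_v _ fun n => ⟨δ.natAbs + n.natAbs, fun i hi => ?_⟩
  rw [v_tau hδ, exp_le_exp]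
  have h1 := one_le_qpow (F := F) i
  have h2 : |δ| + |n| ≤ i := by
    have : ((δ.natAbs + n.natAbs : ℕ) : ℤ) ≤ i := by exact_mod_cast hi
    push_cast at this; exact this
  have h3 := neg_abs_le n
  have h4 := abs_nonneg n
  have h5 := le_abs_self δ
  have h6 := uu_pos (F := F)
  have h7 : δ - i * uu F ≤ -|n| := by nlinarith [abs_nonneg δ]
  nlinarith

theorem summable_Li {n : ℕ} {z : LaurentSeries F}
    (hz : Valued.v z ≤ exp ((n : ℤ) * Fintype.card F - 1)) :
    Summable fun d : ℕ => z ^ (Fintype.card F ^ d) / lg F (TT F) d ^ n := by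
  refine summable_of_v _ fun N => ⟨n * Fintype.card F + N.natAbs, fun i hi => ?_⟩
  refine (v_div_le (v_pow_le hz _) (v_pow_eq (v_lg i) n)).trans (exp_le_exp.2 ?_)
  have h1 := lt_qpow (F := F) i
  have h2 : (n : ℤ) * Fintype.card F + |N| ≤ i := by
    have : ((n * Fintype.card F + N.natAbs : ℕ) : ℤ) ≤ i := by exact_mod_cast hi
    push_cast at this; exact this
  have h3 := neg_abs_le N
  push_cast
  rw [pow_succ]
  nlinarith

theorem v_mon (d : ℕ) (f : Fin d → F) : Valued.v (mon F (TT F) d f) = exp (d * uu F) := by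
  have h6 := uu_pos (F := F)
  refine v_add_eq_left (b := d * uu F - 1) (v_Tp d) (Valuation.map_sum_le _ fun i _ => ?_) (by omega)
  refine (v_mul_le (v_c _) (v_Tp _).le).trans (exp_le_exp.2 ?_)
  have : ((i : ℕ) : ℤ) + 1 ≤ d := by have := i.2; omega
  nlinarith

theorem summable_Lv {n : ℕ} (hn : 1 ≤ n) (c : F) : Summable fun d : ℕ =>
    ∑ f : Fin d → F, algebraMap F (LaurentSeries F) (mon F c d f ^ n) / mon F (TT F) d f ^ n := by
  refine summable_of_v _ fun N => ⟨N.natAbs, fun i hi => Valuation.map_sum_le _ fun f _ => ?_⟩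
  refine (v_div_le (v_c _) (v_pow_eq (v_mon i f) n)).trans (exp_le_exp.2 ?_)
  have h2 : |N| ≤ i := by
    have : ((N.natAbs : ℕ) : ℤ) ≤ i := by exact_mod_cast hi
    push_cast at this; exact this
  have h3 := neg_abs_le N
  have h6 := uu_pos (F := F)
  have h7 : (1 : ℤ) ≤ n := by exact_mod_cast hn
  have h8 : (i : ℤ) ≤ i * uu F := by nlinarith [abs_nonneg N]
  nlinarith [abs_nonneg N]

theorem zeta_eq {n : ℕ} (hn0 : 1 ≤ n) (hn : n ≤ Fintype.card F) : zeta F n = Li F n 1 :=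
  tsum_congr fun d => by rw [sum_mon lg_ne Dg_ne hn0 hn, one_pow]

theorem small (E : ℕ) (H : LaurentSeries F) (b : ℤ) :
    ∃ N : ℤ, ∀ t, Valued.v t ≤ exp N → Valued.v (RR F E (H * t)) ≤ exp b := by
  obtain ⟨M, hM⟩ := exists_v_le H
  refine ⟨(Fintype.card F : ℤ) ^ E * b - uu F - M, fun t ht =>
    RR_val b ((v_mul_le hM ht).trans (le_of_eq ?_))⟩
  congr 1; ring

theorem v_eval {p : (LaurentSeries F)[X]} (hp : p ≠ 0) {h ξ : ℤ}
    (hc : ∀ i, p.coeff i ∈ A F ∧ Valued.v (p.coeff i) ≤ exp h) (hh : 0 ≤ h) (hξ : h < ξ)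
    {x : LaurentSeries F} (hx : Valued.v x = exp ξ) :
    ∃ e : ℤ, Valued.v (p.eval x) = exp e ∧ p.natDegree * ξ ≤ e ∧ e ≤ h + p.natDegree * ξ := by
  have h0 : p.coeff p.natDegree ≠ 0 := leadingCoeff_ne_zero.2 hp
  obtain ⟨e, he⟩ := exists_v_eq h0
  have h1 : 0 ≤ e := by
    have := one_le_v (hc _).1 h0
    rwa [he, ← exp_zero, exp_le_exp] at this
  have h2 : e ≤ h := by
    have := (hc p.natDegree).2
    rwa [he, exp_le_exp] at this
  refine ⟨e + p.natDegree * ξ, ?_, by linarith, by linarith⟩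
  rw [eval_eq_sum_range, Finset.sum_range_succ, add_comm]
  refine v_add_eq_left (b := p.natDegree * ξ - 1) ?_ (Valuation.map_sum_le _ fun i hi => ?_)
    (by linarith)
  · rw [map_mul, he, v_pow_eq hx, exp_add]
  · refine (v_mul_le (hc i).2 (v_pow_eq hx i).le).trans (exp_le_exp.2 ?_)
    have : (i : ℤ) + 1 ≤ p.natDegree := by have := mem_range.1 hi; omega
    nlinarith

theorem aeval_ne {g : F[X]} (hg : g ≠ 0) : aeval (TT F) g ≠ 0 := by
  obtain ⟨e, he, -⟩ := v_eval (p := g.map (algebraMap F (LaurentSeries F))) (h := 0)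
    (Polynomial.map_ne_zero hg) (fun i => by
      rw [coeff_map]; exact ⟨Subalgebra.algebraMap_mem _ _, v_c _⟩) le_rfl
    (by have := uu_pos (F := F); omega) v_T
  rw [eval_map_algebraMap] at he
  exact ne_of_v he

variable {E : ℕ} {ρ : ℤ}

theorem aeval_frob (g : F[X]) : aeval (TT F ^ (Fintype.card F ^ E)) g =
    (aeval (TT F) g) ^ (Fintype.card F ^ E) := by
  rw [← fr_apply, ← fr_apply, aeval_def, aeval_def, hom_eval₂]
  congr 1
  ext c : 1
  simp [fr_apply, frn_c]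

theorem yy_eq (j : ℕ) : yy F E j = TT F ^ (Fintype.card F ^ (j + E)) := by
  rw [yy, ← pow_mul, ← pow_add]

theorem v_x (j : ℕ) :
    Valued.v (TT F ^ (Fintype.card F ^ j)) = exp ((Fintype.card F : ℤ) ^ j * uu F) := by
  rw [v_Tp]; push_cast; rfl

theorem v_Ty (hE : 1 ≤ E) (j : ℕ) : Valued.v (yy F E j - TT F) =
    exp ((Fintype.card F : ℤ) ^ j * (Fintype.card F : ℤ) ^ E * uu F) := by
  rw [yy_eq, v_Tsub1 (Nat.one_lt_pow (by omega) Fintype.one_lt_card)]
  push_cast; rw [pow_add]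

theorem Ty_ne (hE : 1 ≤ E) (j : ℕ) : TT F - yy F E j ≠ 0 := fun h =>
  ne_of_v (v_Ty (F := F) hE j) (by linear_combination -h)

theorem qpow_le {i j : ℕ} (h : i ≤ j) : (Fintype.card F : ℤ) ^ i ≤ (Fintype.card F : ℤ) ^ j :=
  pow_le_pow_right₀ (by exact_mod_cast Fintype.card_pos) h

theorem W_lin {j : ℕ} (h : (Fintype.card F : ℤ) ^ j * uu F ≤ ρ) :
    TT F - yy F E j ∈ W F E ρ ρ := by
  have h1 := one_le_qpow (F := F) j
  have h2 := uu_pos (F := F)
  refine sub_mem ?_ (W_frob ((v_x j).le.trans (exp_le_exp.2 h)))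
  simpa using W_T (F := F) (E := E) (ρ := ρ) 1

theorem W_yinv (hE : 1 ≤ E) {j : ℕ} (h : ρ ≤ (Fintype.card F : ℤ) ^ j * uu F) :
    (yy F E j - TT F)⁻¹ ∈ W F E ρ (-((Fintype.card F : ℤ) ^ j * uu F)) := by
  refine W_inv (v_x j) h ?_
  have h1 := one_le_qpow (F := F) j
  have h2 := uu_pos (F := F)
  have h3 := lt_qpow (F := F) E
  have h4 : (1 : ℤ) ≤ E := by exact_mod_cast hE
  have h5 : uu F ≤ (Fintype.card F : ℤ) ^ j * uu F := by nlinarith
  nlinarith

theorem geom (a b : ℕ) (h : a ≤ b) : ∑ j ∈ Ico a b, (Fintype.card F : ℤ) ^ j * uu F =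
    (Fintype.card F : ℤ) ^ b - (Fintype.card F : ℤ) ^ a := by
  induction b, h using Nat.le_induction with
  | base => simp
  | succ b h ih => rw [Finset.sum_Ico_succ_top h, ih, uu]; ring

theorem tailW (hE : 1 ≤ E) {n : ℕ} {w : LaurentSeries F}
    (hw : Valued.v w ≤ exp ((n : ℤ) * Fintype.card F - 1)) (d : ℕ) :
    Pi0 F E ^ n * ((w ^ (Fintype.card F ^ d)) ^ (Fintype.card F ^ E) /
      (∏ j ∈ range (d + 1), (TT F - yy F E j)) ^ n) ∈
      W F E ((Fintype.card F : ℤ) ^ E * uu F)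
        (n * (E * ((Fintype.card F : ℤ) ^ E * uu F)) +
          n * Fintype.card F * (Fintype.card F : ℤ) ^ E) := by
  set q := Fintype.card F with hq
  have h1 := one_le_qpow (F := F) E
  have h2 := uu_pos (F := F)
  have h0 := one_le_qpow (F := F) d
  have hn : (0 : ℤ) ≤ n := Int.natCast_nonneg n
  have hq1 : (1 : ℤ) ≤ q := by exact_mod_cast Fintype.card_pos
  have hEZ : (0 : ℤ) ≤ E := Int.natCast_nonneg E
  have hρ : 0 ≤ (q : ℤ) ^ E * uu F := by positivity
  have hw' := W_frob (E := E) (ρ := (q : ℤ) ^ E * uu F) (v_pow_le hw (q ^ d))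
  have hne : ∀ s : Finset ℕ, ∏ j ∈ s, (TT F - yy F E j) ≠ 0 := fun s =>
    Finset.prod_ne_zero_iff.2 fun j _ => Ty_ne hE j
  rcases le_total (d + 1) E with h | h
  · have e1 : Pi0 F E ^ n * ((w ^ (q ^ d)) ^ (q ^ E) /
        (∏ j ∈ range (d + 1), (TT F - yy F E j)) ^ n) =
        (∏ j ∈ Ico (d + 1) E, (TT F - yy F E j)) ^ n * (w ^ (q ^ d)) ^ (q ^ E) := by
      rw [Pi0, ← Finset.prod_range_mul_prod_Ico _ h, mul_pow]
      have := hne (range (d + 1))
      field_simp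
    rw [e1]
    have h3 := W_prod (E := E) (ρ := (q : ℤ) ^ E * uu F) (Ico (d + 1) E) _
      (fun _ => (q : ℤ) ^ E * uu F) fun j hj => W_lin (F := F) (j := j)
        (mul_le_mul_of_nonneg_right (qpow_le (mem_Ico.1 hj).2.le) (by linarith))
    refine W_mono (W_mul (W_pow h3 n) hw') ?_
    rw [Finset.sum_const, Nat.card_Ico, nsmul_eq_mul]
    have h4 : ((E - (d + 1) : ℕ) : ℤ) ≤ E := by omega
    have h5 := qpow_le (F := F) (show d ≤ E by omega)
    have h6 := mul_le_mul_of_nonneg_left (mul_le_mul_of_nonneg_right h4 hρ) hn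
    have h7 := mul_le_mul_of_nonneg_left h5 (show (0 : ℤ) ≤ n * q by positivity)
    push_cast
    nlinarith
  · have e1 : Pi0 F E ^ n * ((w ^ (q ^ d)) ^ (q ^ E) /
        (∏ j ∈ range (d + 1), (TT F - yy F E j)) ^ n) =
        (∏ j ∈ Ico E (d + 1), -(yy F E j - TT F)⁻¹) ^ n * (w ^ (q ^ d)) ^ (q ^ E) := by
      rw [Pi0, ← Finset.prod_range_mul_prod_Ico _ h, mul_pow,
        Finset.prod_congr rfl (g := fun j => (TT F - yy F E j)⁻¹) (s₁ := Ico E (d + 1))
          (f := fun j => -(yy F E j - TT F)⁻¹) fun j _ => by rw [← inv_neg, neg_sub],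
        Finset.prod_inv_distrib, inv_pow]
      have := hne (range E)
      have := hne (Ico E (d + 1))
      field_simp
    rw [e1]
    have h3 := W_prod (E := E) (ρ := (q : ℤ) ^ E * uu F) (Ico E (d + 1)) _
      (fun j => -((q : ℤ) ^ j * uu F)) fun j hj => neg_mem (W_yinv (F := F) hE (j := j)
        (mul_le_mul_of_nonneg_right (qpow_le (mem_Ico.1 hj).1) (by linarith)))
    refine W_mono (W_mul (W_pow h3 n) hw') ?_
    rw [Finset.sum_neg_distrib, geom _ _ h, pow_succ]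
    have h6 : 0 ≤ (n : ℤ) * (E * ((q : ℤ) ^ E * uu F)) := by positivity
    have h7 := mul_le_mul_of_nonneg_left hq1 (show (0 : ℤ) ≤ n * (q : ℤ) ^ E by positivity)
    push_cast
    nlinarith

theorem lg_add (E' k : ℕ) : lg F (TT F) (E' + k) =
    lg F (TT F) E' * ∏ j ∈ range k, (TT F - yy F (E' + 1) j) := by
  rw [lg, Finset.prod_range_add, ← lg]
  congr 1
  refine Finset.prod_congr rfl fun j _ => ?_
  rw [yy_eq, show E' + j + 1 = j + (E' + 1) by ring]

theorem piW (E' : ℕ) (c : F) {B : ℕ} (hB : E' + 1 ≤ B) :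
    Pi0 F (E' + 1) * lg F (TT F) E' * pig (F := F) (TT F - algebraMap F _ c) (E' + B) ∈
      W F (E' + 1) ((Fintype.card F : ℤ) ^ (E' + 1) * uu F)
        ((Fintype.card F : ℤ) ^ (E' + 1) * ((Fintype.card F : ℤ) ^ (E' + 1) - Fintype.card F) +
          (Fintype.card F : ℤ) ^ (E' + 1)) := by
  set q := Fintype.card F with hq
  set E := E' + 1 with hE
  set t := TT F - algebraMap F (LaurentSeries F) c with ht
  have h1 := one_le_qpow (F := F) E
  have h2 := uu_pos (F := F)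
  have hρ : 0 ≤ (q : ℤ) ^ E * uu F := by positivity
  have hts : ∀ j, t ^ (q ^ j) - t = TT F ^ (q ^ j) - TT F := fun j => by
    rw [ht, frn_sub, frn_c]; ring
  have hvt : Valued.v t = exp (uu F) := v_sub_eq v_T (v_c c) (by omega)
  have e1 : Pi0 F E * lg F (TT F) E' * pig (F := F) t (E' + B) =
      (∏ j ∈ range E', -t ^ (q ^ (j + 1))) * ((∏ j ∈ range E, -(t ^ (q ^ j)) ^ (q ^ E)) *
        ∏ j ∈ Ico E B, (t ^ (q ^ j)) ^ (q ^ E) * (yy F E j - TT F)⁻¹) := by
    have e2 : ∀ j, t ^ (q ^ (E' + j + 1)) / (t ^ (q ^ (E' + j + 1)) - t) =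
        (t ^ (q ^ j)) ^ (q ^ E) * (yy F E j - TT F)⁻¹ := fun j => by
      rw [hts, yy_eq, ← pow_mul, ← pow_add, show E' + j + 1 = j + E by omega, div_eq_mul_inv]
    rw [pig, Finset.prod_range_add, Finset.prod_congr rfl fun j _ => e2 j,
      ← Finset.prod_range_mul_prod_Ico _ hB, Pi0, lg]
    have e3 : (∏ j ∈ range E', (TT F - TT F ^ (q ^ (j + 1)))) *
        ∏ j ∈ range E', t ^ (q ^ (j + 1)) / (t ^ (q ^ (j + 1)) - t) =
        ∏ j ∈ range E', -t ^ (q ^ (j + 1)) := by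
      rw [← Finset.prod_mul_distrib]
      refine Finset.prod_congr rfl fun j _ => ?_
      have := ne_of_v (v_Tsub1 (F := F) (a := q ^ (j + 1))
        (Nat.one_lt_pow (by omega) Fintype.one_lt_card))
      rw [hts]; field_simp; ring
    have e4 : (∏ j ∈ range E, (TT F - yy F E j)) *
        ∏ j ∈ range E, (t ^ (q ^ j)) ^ (q ^ E) * (yy F E j - TT F)⁻¹ =
        ∏ j ∈ range E, -(t ^ (q ^ j)) ^ (q ^ E) := by
      rw [← Finset.prod_mul_distrib]
      refine Finset.prod_congr rfl fun j _ => ?_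
      have := ne_of_v (v_Ty (F := F) (E := E) (by omega) j)
      field_simp; ring
    rw [← e3, ← e4]; ring
  rw [e1]
  have hW1 : t ∈ W F E ((q : ℤ) ^ E * uu F) ((q : ℤ) ^ E * uu F) := by
    refine sub_mem (by simpa using W_T (F := F) (E := E) (ρ := (q : ℤ) ^ E * uu F) 1) ?_
    rw [← frn_c c E]
    exact W_frob ((v_c c).trans (exp_le_exp.2 hρ))
  have hW2 : ∀ j, (t ^ (q ^ j)) ^ (q ^ E) ∈ W F E ((q : ℤ) ^ E * uu F) ((q : ℤ) ^ j * uu F) :=
    fun j => W_frob (by rw [v_pow_eq hvt]; push_cast; exact le_rfl)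
  have h3 := W_prod (range E') (fun j => -t ^ (q ^ (j + 1))) _
    fun j _ => neg_mem (W_pow hW1 (q ^ (j + 1)))
  have h4 := W_prod (range E) (fun j => -(t ^ (q ^ j)) ^ (q ^ E)) _ fun j _ => neg_mem (hW2 j)
  have h5 := W_prod (Ico E B) (fun j => (t ^ (q ^ j)) ^ (q ^ E) * (yy F E j - TT F)⁻¹) _
    fun j hj => W_mul (hW2 j) (W_yinv (F := F) (E := E) (by omega) (j := j)
      (mul_le_mul_of_nonneg_right (qpow_le (mem_Ico.1 hj).1) (by linarith)))
  refine W_mono (W_mul h3 (W_mul h4 h5)) ?_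
  have g1 := geom (F := F) 0 E (by omega)
  have g2 := geom (F := F) 1 E (by omega)
  rw [← Finset.range_eq_Ico] at g1
  rw [Finset.sum_Ico_eq_sum_range, show E - 1 = E' by omega] at g2
  have g3 : ∑ j ∈ range E', ((q ^ (j + 1) : ℕ) : ℤ) * ((q : ℤ) ^ E * uu F) =
      (q : ℤ) ^ E * ((q : ℤ) ^ E - q ^ 1) := by
    rw [← g2, Finset.mul_sum]
    refine Finset.sum_congr rfl fun j _ => ?_
    push_cast; ring
  rw [g3, g1, ← hq]
  simp

end Pool.Agent.PL
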