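import Pool.Agent.Lib.MP_67d7ce_nt.Core

/-! The grading of `F((1/ι))` by exponents modulo `q - 1`, and the final statement. -/

namespace Pool.Agent.PL

open Finset WithZero Pool.Agent.Carl Polynomial
open Pool.Agent.CarlAn (v_mul_le v_pow_eq v_pow_le one_le_qpow)

set_option linter.unusedSectionVars false

variable (F : Type) [Field F] [Fintype F]

/-- Series supported on a set of exponents. -/
def Sp (P : ℤ → Prop) : AddSubgroup (LaurentSeries F) where
  carrier := {z | ∀ m, z.coeff m ≠ 0 → P m}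
  add_mem' := by
    intro a b ha hb m hm
    by_contra h
    rw [HahnSeries.coeff_add, not_not.1 (mt (ha m) h), not_not.1 (mt (hb m) h), add_zero] at hm
    exact hm rfl
  zero_mem' := fun m hm => absurd rfl hm
  neg_mem' := by
    intro a ha m hm
    exact ha m (by simpa using hm)

def Gr (k : ℤ) : AddSubgroup (LaurentSeries F) := Sp F fun m => uu F ∣ m + k

def Co (k : ℤ) : AddSubgroup (LaurentSeries F) := Sp F fun m => ¬ uu F ∣ m + k

variable {F}

theorem Sp_mul {P P' P'' : ℤ → Prop} {a b : LaurentSeries F} (ha : a ∈ Sp F P) (hb : b ∈ Sp F P')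
    (h : ∀ i j, P i → P' j → P'' (i + j)) : a * b ∈ Sp F P'' := by
  intro m hm
  obtain ⟨i, hi, j, hj, rfl⟩ := HahnSeries.support_mul_subset ((HahnSeries.mem_support _ _).2 hm)
  exact h i j (ha i hi) (hb j hj)

theorem Sp_tsum {P : ℤ → Prop} {t : ℕ → LaurentSeries F} (hs : Summable t)
    (h : ∀ i, t i ∈ Sp F P) : ∑' i, t i ∈ Sp F P := by
  intro m hm
  obtain ⟨B, hB⟩ := (approx hs (-m - 1)).exists
  have h1 := v_le_iff.1 hB m (by omega)
  rw [HahnSeries.coeff_sub, sub_eq_zero] at h1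
  exact (sum_mem fun i _ => h i : ∑ i ∈ range B, t i ∈ Sp F P) m (h1 ▸ hm)

theorem Sp_single {P : ℤ → Prop} {m : ℤ} (c : F) (h : P m) : HahnSeries.single m c ∈ Sp F P := by
  intro k hk
  by_cases e : k = m
  · rwa [e]
  · exact absurd (HahnSeries.coeff_single_of_ne e) hk

theorem v_Sp {z : LaurentSeries F} {d : ℤ} :
    Valued.v z ≤ exp d ↔ z ∈ Sp F fun m => -d ≤ m :=
  v_le_iff.trans ⟨fun h m hm => not_lt.1 fun h1 => hm (h m h1),
    fun h m hm => not_not.1 fun h1 => not_le.2 hm (h m h1)⟩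

theorem Gr_Co {k : ℤ} {z : LaurentSeries F} (h1 : z ∈ Gr F k) (h2 : z ∈ Co F k) : z = 0 := by
  ext m
  by_contra h
  exact h2 m h (h1 m h)

theorem Gr_mul {k l : ℤ} {a b : LaurentSeries F} (ha : a ∈ Gr F k) (hb : b ∈ Gr F l) :
    a * b ∈ Gr F (k + l) :=
  Sp_mul ha hb fun i j hi hj => by
    rw [show i + j + (k + l) = i + k + (j + l) by ring]; exact dvd_add hi hj

theorem Co_mul {k : ℤ} {a b : LaurentSeries F} (ha : a ∈ Co F k) (hb : b ∈ Gr F 0) :
    a * b ∈ Co F k :=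
  Sp_mul ha hb fun i j hi hj h => hi (by
    rw [show i + k = i + j + k - (j + 0) by ring]; exact dvd_sub h hj)

theorem Gr_congr {k l : ℤ} {a : LaurentSeries F} (ha : a ∈ Gr F k) (h : uu F ∣ l - k) :
    a ∈ Gr F l := fun m hm => by
  show uu F ∣ m + l
  rw [show m + l = m + k + (l - k) by ring]; exact dvd_add (ha m hm) h

theorem c_Gr (c : F) : algebraMap F (LaurentSeries F) c ∈ Gr F 0 := by
  rw [LaurentSeries.algebraMap_apply, HahnSeries.C_apply]
  exact Sp_single c (by simp)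

theorem Gr_pow {k : ℤ} {a : LaurentSeries F} (ha : a ∈ Gr F k) (j : ℕ) : a ^ j ∈ Gr F (j * k) := by
  induction j with
  | zero => simpa using c_Gr (F := F) 1
  | succ j ih => rw [pow_succ]; push_cast; rw [add_mul, one_mul]; exact Gr_mul ih ha

theorem Gr_inv {a : LaurentSeries F} (ha : a ∈ Gr F 0) : a⁻¹ ∈ Gr F 0 := by
  classical
  rcases eq_or_ne a 0 with rfl | h0
  · simp
  set x : LaurentSeries F := ⟨fun m => if uu F ∣ m + 0 then a⁻¹.coeff m else 0,
    a⁻¹.isPWO_support.mono fun m hm => by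
      simp only [Function.mem_support, ne_eq, ite_eq_right_iff, Classical.not_imp] at hm
      exact hm.2⟩ with hx
  have h1 : x ∈ Gr F 0 := fun m hm => by
    by_contra h
    exact hm (if_neg h)
  have h2 : a⁻¹ - x ∈ Co F 0 := fun m hm h => hm (by
    rw [HahnSeries.coeff_sub, sub_eq_zero]; exact (if_pos h).symm)
  have h3 : (a⁻¹ - x) * a = 0 := Gr_Co (k := 0) (by
    rw [sub_mul, inv_mul_cancel₀ h0]
    exact sub_mem (by simpa using c_Gr (F := F) 1) (by simpa using Gr_mul h1 ha)) (Co_mul h2 ha)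
  rw [mul_eq_zero, or_iff_left h0, sub_eq_zero] at h3
  rwa [h3]

variable (F) in
/-- The degree zero part `F((1/T))`. -/
noncomputable def G0 : IntermediateField F (LaurentSeries F) where
  carrier := Gr F 0
  mul_mem' ha hb := by simpa using Gr_mul ha hb
  add_mem' := add_mem
  algebraMap_mem' := c_Gr
  inv_mem' _ := Gr_inv

theorem th_Gr : th F ∈ Gr F 1 := Sp_single 1 (by simp)

theorem T_G0 : TT F ∈ G0 F :=
  neg_mem (s := Gr F 0) (Gr_congr (Gr_pow th_Gr _) (by rw [uu_cast]; simp))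

theorem Gr_G0 {k : ℤ} {a b : LaurentSeries F} (ha : a ∈ Gr F k) (hb : b ∈ G0 F) :
    a * b ∈ Gr F k := by simpa using Gr_mul ha hb

theorem Dg_G0 (i : ℕ) : Dg F (TT F) i ∈ G0 F :=
  prod_mem fun _ _ => sub_mem (pow_mem T_G0 _) (pow_mem T_G0 _)

theorem lg_G0 (i : ℕ) : lg F (TT F) i ∈ G0 F :=
  prod_mem fun _ _ => sub_mem T_G0 (pow_mem T_G0 _)

theorem mon_G0 (d : ℕ) (f : Fin d → F) : mon F (TT F) d f ∈ G0 F :=
  add_mem (pow_mem T_G0 _) (sum_mem fun _ _ => mul_mem (c_Gr _) (pow_mem T_G0 _))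

theorem aeval_G0 (g : F[X]) : aeval (TT F) g ∈ G0 F :=
  Algebra.adjoin_le (S := (G0 F).toSubalgebra) (s := {TT F}) (by simpa using T_G0)
    (Polynomial.aeval_mem_adjoin_singleton F _)

theorem frob_Gr {a : LaurentSeries F} (ha : a ∈ Gr F 1) (i : ℕ) :
    a ^ (Fintype.card F ^ i) ∈ Gr F 1 :=
  Gr_congr (Gr_pow ha _) (by
    push_cast
    rw [mul_one, ← dvd_neg, neg_sub, uu]
    simpa using sub_dvd_pow_sub_pow (Fintype.card F : ℤ) 1 i)

theorem ex_Gr {s : LaurentSeries F} (hs : s ∈ Gr F 1) : ex F s ∈ Gr F 1 :=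
  Sp_tsum (summable_ex s) fun i => by
    rw [div_eq_mul_inv]; exact Gr_G0 (frob_Gr hs i) (inv_mem (Dg_G0 i))

theorem ex_T (s : LaurentSeries F) :
    ex F (TT F * s) = TT F * ex F s + ex F s ^ Fintype.card F := by
  have h1 := (summable_ex s).hasSum
  have h2 := h1.map (fr F 1).toAddMonoidHom (by
    have : ⇑(fr F 1).toAddMonoidHom = fun z => z ^ (Fintype.card F ^ 1) := funext fr_apply
    rw [this]; exact continuous_pow _)
  have h3 : HasSum (fun i : ℕ => (TT F * s) ^ (Fintype.card F ^ i) / Dg F (TT F) i -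
      TT F * (s ^ (Fintype.card F ^ i) / Dg F (TT F) i)) (ex F s ^ Fintype.card F) := by
    rw [← hasSum_nat_add_iff' 1]
    have e1 : (fun i : ℕ => (TT F * s) ^ (Fintype.card F ^ (i + 1)) / Dg F (TT F) (i + 1) -
        TT F * (s ^ (Fintype.card F ^ (i + 1)) / Dg F (TT F) (i + 1))) =
        (fr F 1).toAddMonoidHom ∘ fun i => s ^ (Fintype.card F ^ i) / Dg F (TT F) i := by
      ext1 i
      have h4 := Dg_ne (F := F) (i + 1)
      rw [Dg_succ] at h4
      have h5 := left_ne_zero_of_mul h4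
      have h6 := Dg_ne (F := F) i
      simp only [Function.comp, RingHom.toAddMonoidHom_eq_coe, AddMonoidHom.coe_coe, fr_apply,
        pow_one, Dg_succ, mul_pow, div_pow]
      rw [← pow_mul, ← pow_succ]
      field_simp
    rw [e1]
    simpa [fr_apply, ex, Dg] using h2
  have h4 := (h1.mul_left (TT F)).add h3
  simp only [add_sub_cancel] at h4
  exact h4.tsum_eq

theorem ex_bound (k : ℕ) : ∀ s ∈ Gr F 1, Valued.v s ≤ exp (1 + k * uu F) →
    Valued.v (ex F s) ≤ exp (1 : ℤ) := by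
  have hu := uu_pos (F := F)
  induction k with
  | zero =>
    intro s _ hv
    refine v_Sp.2 (Sp_tsum (summable_ex s) fun i => v_Sp.1 ?_)
    refine (v_div_le (v_pow_le hv _) (v_Dg i)).trans (exp_le_exp.2 ?_)
    have h1 := one_le_qpow (F := F) i
    rcases Nat.eq_zero_or_pos i with rfl | hi
    · simp
    · have h2 : (1 : ℤ) ≤ i * uu F := one_le_mul_of_one_le_of_one_le (by exact_mod_cast hi) hu
      push_cast
      nlinarith
  | succ k ih =>
    intro s hs hv
    have h1 : s * (TT F)⁻¹ ∈ Gr F 1 := Gr_G0 hs (inv_mem T_G0)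
    have h2 := ih _ h1 (by
      rw [← div_eq_mul_inv]
      refine (v_div_le hv v_T).trans (le_of_eq ?_)
      congr 1; push_cast; ring)
    have h3 := ex_Gr h1
    rw [show s = TT F * (s * (TT F)⁻¹) by field_simp [T_ne (F := F)], ex_T]
    generalize ex F (s * (TT F)⁻¹) = z at h2 h3
    set w := z - HahnSeries.single (-((1 : ℕ) : ℤ)) (z.coeff (-1)) with hw
    have h4 : Valued.v w ≤ exp (1 - uu F) := by
      refine v_le_iff.2 fun m hm => ?_
      rw [hw, HahnSeries.coeff_sub]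
      rcases eq_or_ne m (-1) with rfl | h5
      · simp
      rw [HahnSeries.coeff_single_of_ne (by simpa using h5), sub_zero]
      by_contra h6
      have h7 := v_Sp.1 h2 m h6
      have h8 := Int.le_of_dvd (by omega) (h3 m h6)
      omega
    have h5 : TT F * z + z ^ Fintype.card F = TT F * w + w ^ Fintype.card F := by
      rw [hw, fr_sub (F := F), single_eq, mul_pow, fr_c, pow_one, pow_q (F := F) (th F), TT]; ring
    rw [h5]
    refine Valuation.map_add_le _ ((v_mul_le v_T.le h4).trans (le_of_eq (by congr 1; ring)))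
      ((v_pow_le h4 _).trans (exp_le_exp.2 ?_))
    nlinarith [Int.natCast_nonneg (Fintype.card F)]

theorem proj (hq : 3 ≤ Fintype.card F) (p : F[X]) :
    ∃ a : F[X], aeval (th F) p - th F * aeval (TT F) a ∈ Co F 1 := by
  induction p using Polynomial.induction_on' with
  | add p q hp hq =>
    obtain ⟨a, ha⟩ := hp
    obtain ⟨b, hb⟩ := hq
    refine ⟨a + b, ?_⟩
    convert add_mem ha hb using 1
    simp only [map_add]; ring
  | monomial t c =>
    rw [aeval_monomial]
    by_cases h : uu F ∣ -(t : ℤ) + 1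
    · obtain ⟨k, hk⟩ := h
      have h1 : 2 ≤ uu F := by rw [uu]; omega
      have h2 : k ≤ 0 := by nlinarith [Int.natCast_nonneg t]
      obtain ⟨j, hj⟩ := Int.eq_ofNat_of_zero_le (neg_nonneg.2 h2)
      have h3 : t = (Fintype.card F - 1) * j + 1 := by
        have : (t : ℤ) = ((Fintype.card F - 1) * j + 1 : ℕ) := by
          rw [Nat.cast_add, Nat.cast_mul, uu_cast, ← hj]; push_cast; linarith
        exact_mod_cast this
      refine ⟨Polynomial.C c * (-X) ^ j, ?_⟩
      convert zero_mem (Co F 1) using 1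
      simp only [map_mul, map_pow, map_neg, aeval_C, aeval_X]
      rw [TT, neg_neg, h3, pow_succ, pow_mul]; ring
    · refine ⟨0, ?_⟩
      rw [map_zero, mul_zero, sub_zero, ← single_eq]
      exact Sp_single c h

theorem den (hq : 3 ≤ Fintype.card F) {x : LaurentSeries F} (hx : x ∈ kk F) :
    ∃ C a : F[X], C ≠ 0 ∧ aeval (TT F) C * x - th F * aeval (TT F) a ∈ Co F 1 := by
  obtain ⟨r, s, rfl⟩ := (IntermediateField.mem_adjoin_simple_iff F x).1 hx
  by_cases h : aeval (th F) s = 0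
  · exact ⟨1, 0, one_ne_zero, by simp [h]⟩
  have hs : s ≠ 0 := fun e => h (by simp [e])
  have : Module.Finite F (AdjoinRoot s) := (AdjoinRoot.powerBasis hs).finite
  have : Finite (AdjoinRoot s) := Module.finite_of_finite F
  obtain ⟨i, j, hij, e⟩ := Finite.exists_ne_map_eq_of_infinite
    fun i : ℕ => AdjoinRoot.mk s ((-X ^ (Fintype.card F - 1)) ^ i)
  obtain ⟨g, hg⟩ := AdjoinRoot.mk_eq_mk.1 e
  obtain ⟨a, ha⟩ := proj hq (r * g)
  refine ⟨X ^ i - X ^ j, a, fun e => hij ?_, ?_⟩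
  · simpa using congrArg natDegree (sub_eq_zero.1 e)
  · have h1 := congrArg (aeval (th F)) hg
    simp only [map_sub, map_pow, map_neg, map_mul, aeval_X] at h1 ha ⊢
    rw [TT, h1, ← TT]
    convert ha using 2
    field_simp

theorem final {n : ℕ} (hn : 2 ≤ n) (hq : n + 5 ≤ Fintype.card F) (c : F) {s : LaurentSeries F}
    (hs : s ≠ 0) (hi : s ∈ Gr F 1) :
    Valued.v (ex F s) ≤ exp (1 : ℤ) ∧ Li F n (ex F s) - s ∉
      Submodule.span (kk F) ({1, zeta F n, Lv F n c} : Set (LaurentSeries F)) := by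
  have hu := uu_pos (F := F)
  have hv : Valued.v (ex F s) ≤ exp (1 : ℤ) := by
    obtain ⟨δ, hδ⟩ := exists_v_eq hs
    refine ex_bound δ.natAbs s hi (hδ.le.trans (exp_le_exp.2 ?_))
    push_cast
    nlinarith [le_abs_self δ, abs_nonneg δ]
  have hn2 : (2 : ℤ) ≤ n := by exact_mod_cast hn
  have hq2 : (1 : ℤ) ≤ Fintype.card F := by exact_mod_cast Fintype.card_pos
  have hz : Valued.v (ex F s) ≤ exp ((n : ℤ) * Fintype.card F - 1) :=
    hv.trans (exp_le_exp.2 (by nlinarith))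
  refine ⟨hv, fun h => ?_⟩
  obtain ⟨x, y, w, e⟩ := Submodule.mem_span_triple.1 h
  obtain ⟨C1, a1, h1, k1⟩ := den (by omega) x.2
  obtain ⟨C2, a2, h2, k2⟩ := den (by omega) y.2
  obtain ⟨C3, a3, h3, k3⟩ := den (by omega) w.2
  have hζ : zeta F n ∈ G0 F := by
    rw [zeta_eq (by omega) (by omega)]
    refine Sp_tsum (summable_Li ?_) fun i =>
      (div_mem (pow_mem (one_mem _) _) (pow_mem (lg_G0 i) _) : _ ∈ G0 F)
    rw [map_one, ← exp_zero, exp_le_exp]; nlinarith
  have hL : Lv F n c ∈ G0 F := Sp_tsum (summable_Lv (by omega) c) fun i =>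
    (sum_mem fun f _ => div_mem (c_Gr _) (pow_mem (mon_G0 i f) _) : _ ∈ G0 F)
  have hy : Li F n (ex F s) - s ∈ Gr F 1 := sub_mem (Sp_tsum (summable_Li hz) fun i => by
    rw [div_eq_mul_inv]; exact Gr_G0 (frob_Gr (ex_Gr hi) i) (inv_mem (pow_mem (lg_G0 i) _))) hi
  refine core hn hq c hs hz (C1 * C2 * C3) (a1 * C2 * C3) (a2 * C1 * C3) (a3 * C1 * C2)
    (mul_ne_zero (mul_ne_zero h1 h2) h3) (sub_eq_zero.1 (Gr_Co (k := 1) ?_ ?_))
  · rw [mul_comm]
    exact sub_mem (Gr_G0 hy (aeval_G0 _)) (Gr_G0 th_Gr (add_mem (add_mem (aeval_G0 _)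
      (mul_mem (aeval_G0 _) hζ)) (mul_mem (aeval_G0 _) hL)))
  · convert add_mem (add_mem (Co_mul k1 (aeval_G0 (C2 * C3)))
      (Co_mul k2 (mul_mem (aeval_G0 (C1 * C3)) hζ : _ ∈ G0 F)))
      (Co_mul k3 (mul_mem (aeval_G0 (C1 * C2)) hL : _ ∈ G0 F)) using 1
    rw [← e]
    simp only [map_mul, IntermediateField.smul_def, smul_eq_mul]
    ring

end Pool.Agent.PL
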