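import Pool.Agent.Lib.MP_67d7ce_nt.Est

/-! The main step. -/

namespace Pool.Agent.PL

open Finset WithZero Pool.Agent.Carl Polynomial Filter Topology
open Pool.Agent.CarlAn (v_mul_le v_pow_eq v_pow_le v_add_eq_left one_le_qpow v_th)

set_option linter.unusedSectionVars false

variable {F : Type} [Field F] [Fintype F]

theorem range_split {M : Type} [AddCommMonoid M] (f : ℕ → M) (E' B : ℕ) :
    ∑ i ∈ range (E' + 1 + B), f i =
      f 0 + ∑ i ∈ range E', f (i + 1) + ∑ j ∈ range B, f (j + (E' + 1)) := by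
  rw [Finset.sum_range_add, Finset.sum_range_succ', add_comm _ (f 0)]
  simp only [add_comm (E' + 1)]

theorem Li_term (E' n j : ℕ) (w : LaurentSeries F) :
    lg F (TT F) E' ^ n * (w ^ (Fintype.card F ^ (j + (E' + 1))) / lg F (TT F) (j + (E' + 1)) ^ n) =
      (w ^ (Fintype.card F ^ j)) ^ (Fintype.card F ^ (E' + 1)) /
        (∏ i ∈ range (j + 1), (TT F - yy F (E' + 1) i)) ^ n := by
  rw [show j + (E' + 1) = E' + (j + 1) by ring, lg_add, ← pow_mul, ← pow_add,
    show j + (E' + 1) = E' + (j + 1) by ring, mul_pow]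
  have := lg_ne (F := F) E'
  field_simp

theorem lg_div {d E' : ℕ} (h : d ≤ E') (n : ℕ) :
    lg F (TT F) E' ^ n * (1 / lg F (TT F) d ^ n) ∈ A F := by
  have h1 : lg F (TT F) E' = lg F (TT F) d *
      ∏ j ∈ Ico d E', (TT F - TT F ^ (Fintype.card F ^ (j + 1))) := by
    rw [lg, lg, Finset.prod_range_mul_prod_Ico _ h]
  have h2 := lg_ne (F := F) d
  rw [h1, mul_pow, mul_right_comm, mul_one_div_cancel (pow_ne_zero _ h2), one_mul]
  exact pow_mem (prod_mem fun _ _ => sub_mem T_mem (pow_mem T_mem _)) _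

theorem ph_mem {E : ℕ} {p : (LaurentSeries F)[X]} (h : ∀ i, p.coeff i ∈ A F) : ph F E p ∈ A F := by
  rw [ph_sum]
  exact sum_mem fun i _ => mul_mem (pow_mem (h i) _) (pow_mem T_mem _)

theorem Pi0_mem (E : ℕ) : Pi0 F E ∈ A F :=
  prod_mem fun _ _ => sub_mem T_mem (pow_mem (pow_mem T_mem _) _)

theorem Pi0_W {E : ℕ} {ρ : ℤ} (h : (Fintype.card F : ℤ) ^ E * uu F ≤ ρ) :
    Pi0 F E ∈ W F E ρ (E * ρ) := by
  have h2 := uu_pos (F := F)
  have := W_prod (E := E) (ρ := ρ) (range E) _ (fun _ => ρ) fun j hj => W_lin (F := F) (j := j)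
    ((mul_le_mul_of_nonneg_right (qpow_le (mem_range.1 hj).le) (by linarith)).trans h)
  rwa [Finset.sum_const, card_range, nsmul_eq_mul] at this

theorem umul {u a k k' : ℤ} (hu : 1 ≤ u) (hk : k ≤ k') (h0 : 0 ≤ k') (ha : a + k' ≤ 0) :
    u * a + k ≤ 0 := by nlinarith

theorem eL_gen (E' B : ℕ) (Y : LaurentSeries F) {z Lz : LaurentSeries F}
    (f g : ℕ → LaurentSeries F) (hg0 : g 0 = z)
    (k1 : ∀ i < E', RR F (E' + 1) (Y * f (i + 1)) = 0)
    (k2 : ∀ i < E', RR F (E' + 1) (Y * g (i + 1)) = 0) :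
    RR F (E' + 1) (Y * (Lz - f 0)) = ∑ j ∈ range B, RR F (E' + 1) (Y * f (j + (E' + 1))) +
      (∑ j ∈ range B, RR F (E' + 1) (Y * g (j + (E' + 1))) +
      (RR F (E' + 1) (Y * (z - ∑ i ∈ range (E' + 1 + B), f i)) +
        RR F (E' + 1) (Y * (Lz - ∑ i ∈ range (E' + 1 + B), g i)))) := by
  have e1 : Lz - f 0 = ∑ i ∈ range E', f (i + 1) + (∑ i ∈ range E', g (i + 1) +
      (∑ j ∈ range B, f (j + (E' + 1)) + (∑ j ∈ range B, g (j + (E' + 1)) +
      ((z - ∑ i ∈ range (E' + 1 + B), f i) + (Lz - ∑ i ∈ range (E' + 1 + B), g i))))) := by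
    rw [range_split, range_split, hg0]; ring
  rw [e1, mul_add, mul_add, mul_add, mul_add, mul_add, RR_add, RR_add, RR_add, RR_add, RR_add,
    Finset.mul_sum, Finset.mul_sum, Finset.mul_sum, Finset.mul_sum, RR_sum, RR_sum, RR_sum, RR_sum,
    Finset.sum_eq_zero fun i hi => k1 i (mem_range.1 hi),
    Finset.sum_eq_zero fun i hi => k2 i (mem_range.1 hi), zero_add, zero_add]

theorem eR_gen (E' B n : ℕ) {π a r b ζ L w : LaurentSeries F} (hπ : π ∈ A F) (ha : a ∈ A F)
    (hr : r ∈ A F) : ∃ a0 ∈ A F, RR F (E' + 1) (π * lg F (TT F) E' ^ n * (r + a * ζ + b * L)) =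
      a0 + (∑ j ∈ range B, RR F (E' + 1) (π * a * (lg F (TT F) E' ^ n *
        (1 ^ (Fintype.card F ^ (j + (E' + 1))) / lg F (TT F) (j + (E' + 1)) ^ n))) +
      (RR F (E' + 1) (π * a * lg F (TT F) E' ^ n * (ζ - ∑ i ∈ range (E' + 1 + B),
        1 ^ (Fintype.card F ^ i) / lg F (TT F) i ^ n)) +
      (RR F (E' + 1) (π * b * (lg F (TT F) E' ^ n * w)) +
        RR F (E' + 1) (π * b * lg F (TT F) E' ^ n * (L - w))))) := by
  refine ⟨RR F (E' + 1) (π * (lg F (TT F) E' ^ n * r + a *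
      (lg F (TT F) E' ^ n * (1 / lg F (TT F) 0 ^ n) +
        ∑ i ∈ range E', lg F (TT F) E' ^ n * (1 / lg F (TT F) (i + 1) ^ n)))),
      RR_mem (mul_mem hπ (add_mem (mul_mem (pow_mem (lg_mem _) _) hr)
        (mul_mem ha (add_mem (lg_div (by omega) n)
          (sum_mem fun i hi => lg_div (mem_range.1 hi) n))))), ?_⟩
  rw [← RR_sum, ← RR_add, ← RR_add, ← RR_add, ← RR_add,
      ← Finset.mul_sum, ← Finset.mul_sum, ← Finset.mul_sum, range_split]
  congr 1
  simp only [one_pow]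
  ring

theorem fin_gen {B E : ℕ} (hEB : E < B) {P X Y : ℕ → LaurentSeries F}
    {x1 x2 y1 y2 y3 a0 : LaurentSeries F} {e b0 : ℤ} (ha0 : a0 ∈ A F)
    (eL : th F * a0 + th F * (∑ j ∈ range B, Y j + (y1 + (y2 + y3))) =
      ∑ j ∈ range B, P j + (∑ j ∈ range B, X j + (x1 + x2)))
    (he : Valued.v (P E) = exp e) (he1 : b0 ≤ e) (he2 : e < 0)
    (hP : ∀ j, j ≠ E → Valued.v (P j) ≤ exp (b0 - 1))
    (hX : ∀ j, Valued.v (X j) ≤ exp (b0 - 2)) (hY : ∀ j, Valued.v (Y j) ≤ exp (b0 - 2))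
    (h1 : Valued.v x1 ≤ exp (b0 - 2)) (h2 : Valued.v x2 ≤ exp (b0 - 2))
    (h3 : Valued.v y1 ≤ exp (b0 - 2)) (h4 : Valued.v y2 ≤ exp (b0 - 2))
    (h5 : Valued.v y3 ≤ exp (b0 - 2)) : False := by
  have hle : ∀ {x : LaurentSeries F}, Valued.v x ≤ exp (b0 - 2) → Valued.v x ≤ exp (b0 - 1) :=
    fun h => h.trans (exp_le_exp.2 (by linarith))
  rw [← Finset.add_sum_erase _ P (mem_range.2 hEB), add_assoc (P E), ← eq_sub_iff_add_eq,
    add_sub_assoc] at eL
  have hv : Valued.v (th F * a0) = exp e := by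
    rw [eL]
    refine v_add_eq_left (b := b0 - 1) he (Valuation.map_sub_le _ (Valuation.map_add_le _
      (Valuation.map_sum_le _ fun j hj => hP j (ne_of_mem_erase hj))
      (hle (Valuation.map_add_le _ (Valuation.map_sum_le _ fun j _ => hX j)
        (Valuation.map_add_le _ h1 h2)))) ?_) (by linarith only [he1])
    refine (v_mul_le (v_th F).le (Valuation.map_add_le _
      (Valuation.map_sum_le _ fun j _ => hY j)
      (Valuation.map_add_le _ h3 (Valuation.map_add_le _ h4 h5)))).trans (le_of_eq ?_)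
    congr 1; ring
  have := one_le_v (mul_mem th_mem ha0) (ne_of_v hv)
  rw [hv, ← exp_zero, exp_le_exp] at this
  linarith only [this, he2]

theorem contra (m E' S : ℕ) (hm : 1 ≤ m) (hmq : m + 1 ≤ Fintype.card F) (c : F)
    {s : LaurentSeries F} {δ : ℤ} (hδ : Valued.v s = exp δ)
    (hz : Valued.v (ex F s) ≤ exp (((m + 1 : ℕ) : ℤ) * Fintype.card F - 1))
    (C r a b : F[X]) (hC : C ≠ 0)
    (hS : S = ∑ j ∈ range E', Fintype.card F ^ (j + 1) + 1)
    (p : (LaurentSeries F)[X]) (hp : p ≠ 0)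
    (hc : ∀ i, p.coeff i ∈ A F ∧
      Valued.v (p.coeff i) ≤ exp ((Fintype.card F : ℤ) ^ (E' + 1) * uu F - 1))
    (hk1 : ∀ v, 1 ≤ v → v < E' + 1 → ∀ z : LaurentSeries F, RR F (E' + 1) (ph F (E' + 1) p *
      (Pi0 F (E' + 1) ^ (m + 1) * aeval (TT F) C * (-TT F) ^ S * lg F (TT F) E' ^ (m + 1) /
        Dg F (TT F) v * z ^ (Fintype.card F ^ v))) = 0)
    (hk2 : ∀ v, 1 ≤ v → v < E' + 1 → ∀ z : LaurentSeries F, RR F (E' + 1) (ph F (E' + 1) p *
      (Pi0 F (E' + 1) ^ (m + 1) * aeval (TT F) C * (-TT F) ^ S * lg F (TT F) E' ^ (m + 1) /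
        lg F (TT F) v ^ (m + 1) * z ^ (Fintype.card F ^ v))) = 0)
    (H1 : p.natDegree + (m + 1) * (E' + 1) + (m + 1) * S + 2 * C.natDegree + E' + m +
      δ.natAbs + 4 ≤ Fintype.card F ^ (E' + 1))
    (H2 : b.natDegree + m + δ.natAbs + 3 ≤ E')
    (H3 : E' + m + 4 + C.natDegree + a.natDegree + (m + 1) * Fintype.card F + δ.natAbs ≤ S)
    (hrel : aeval (TT F) C * (Li F (m + 1) (ex F s) - s) =
      th F * (aeval (TT F) r + aeval (TT F) a * zeta F (m + 1) +
        aeval (TT F) b * Lv F (m + 1) c)) : False := by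
  classical
  set q := Fintype.card F with hq
  set E := E' + 1 with hE
  set n := m + 1 with hn
  set l := lg F (TT F) E' with hl
  set z := ex F s with hzd
  set D := p.natDegree with hD
  set Q : ℤ := (q : ℤ) ^ E with hQ
  have hE1 : 1 ≤ E := by omega
  have hu := uu_pos (F := F)
  have hQ1 : 1 ≤ Q := one_le_qpow E
  have hq2 : (q : ℤ) = uu F + 1 := by rw [uu]; ring
  have hSQ : (S : ℤ) * uu F = Q - 1 := by
    have g1 := geom (F := F) 0 E (by omega)
    rw [← Finset.range_eq_Ico, Finset.sum_range_succ', ← Finset.sum_mul] at g1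
    rw [hS]; push_cast; rw [hQ]; linarith
  have hSQ' : (q - 1) * S + 1 = q ^ E := by
    have : (((q - 1) * S + 1 : ℕ) : ℤ) = (q ^ E : ℕ) := by
      rw [Nat.cast_add, Nat.cast_mul, uu_cast]; push_cast; linarith
    exact_mod_cast this
  have H1' : (D : ℤ) + (m + 1) * (E' + 1) + (m + 1) * S + 2 * C.natDegree + E' + m + |δ| + 4 ≤ Q := by
    have := Int.ofNat_le.2 H1; push_cast at this; exact this
  have H2' : (b.natDegree : ℤ) + m + |δ| + 3 ≤ E' := by
    have := Int.ofNat_le.2 H2; push_cast at this; exact this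
  have H3' : (E' : ℤ) + m + 4 + C.natDegree + a.natDegree + (m + 1) * q + |δ| ≤ S := by
    have := Int.ofNat_le.2 H3; push_cast at this; exact this
  have hd1 := le_abs_self δ
  have hd2 := neg_abs_le δ
  have hd3 := abs_nonneg δ
  have hm' : (1 : ℤ) ≤ m := by exact_mod_cast hm
  have hEZ : (E : ℤ) = E' + 1 := by rw [hE]; push_cast; rfl
  have hnZ : (n : ℤ) = m + 1 := by rw [hn]; push_cast; rfl
  have hγ : (0 : ℤ) ≤ C.natDegree := Int.natCast_nonneg _
  have hα : (0 : ℤ) ≤ a.natDegree := Int.natCast_nonneg _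
  have hβ : (0 : ℤ) ≤ b.natDegree := Int.natCast_nonneg _
  have hD0 : (0 : ℤ) ≤ D := Int.natCast_nonneg _
  have hE0 : (0 : ℤ) ≤ E' := Int.natCast_nonneg _
  have hS0 : (0 : ℤ) ≤ S := Int.natCast_nonneg _
  have hρ : 0 ≤ Q * uu F := by positivity
  have h13 : uu F ≤ Q * uu F := by nlinarith only [hu, hQ1]
  have hρu : uu F ≤ Q * (Q * uu F) := by nlinarith only [h13, hQ1, hρ]
  have hnE : (n : ℤ) * E = (m + 1) * (E' + 1) := by rw [hnZ, hEZ]
  have hnS : (n : ℤ) * S = (m + 1) * S := by rw [hnZ]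
  have hnq : (n : ℤ) * q = (m + 1) * q := by rw [hnZ]
  have hmS : (S : ℤ) ≤ m * S := by nlinarith only [hm', hS0]
  have hmE : (E : ℤ) ≤ m * E := by nlinarith only [hm', hE0, hEZ]
  have hq0 : (0 : ℤ) ≤ (m + 1) * q := by positivity
  -- the polynomials
  set lX : F[X] := ∏ j ∈ range E', (X - X ^ (q ^ (j + 1))) with hlX
  have hlX1 : aeval (TT F) lX = l := by simp [hlX, hl, lg, map_prod, hq]
  have hlX2 : lX.natDegree + 1 ≤ S := by
    rw [hS, Nat.add_le_add_iff_right]
    refine (natDegree_prod_le _ _).trans (Finset.sum_le_sum fun j _ => ?_)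
    refine (natDegree_sub_le _ _).trans (max_le ?_ (natDegree_X_pow_le _))
    exact natDegree_X_le.trans (q_pos _)
  set C1 : F[X] := C * (-X) ^ S with hC1
  have hC1d : C1.natDegree ≤ C.natDegree + S :=
    natDegree_mul_le.trans (Nat.add_le_add_left
      (natDegree_pow_le.trans (by rw [natDegree_neg, natDegree_X, mul_one])) _)
  have hC1e : aeval (TT F) C1 = aeval (TT F) C * (-TT F) ^ S := by simp [hC1]
  set C0 : F[X] := C1 * lX ^ m with hC0
  have hC0d : C0.natDegree + m ≤ C.natDegree + (m + 1) * S := by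
    have h1 : C0.natDegree ≤ C1.natDegree + m * lX.natDegree :=
      natDegree_mul_le.trans (Nat.add_le_add_left natDegree_pow_le _)
    nlinarith only [Nat.mul_le_mul_left m hlX2, h1, hC1d]
  have hC0e : aeval (TT F) C0 = aeval (TT F) C * (-TT F) ^ S * l ^ m := by
    rw [hC0, map_mul, map_pow, hC1e, hlX1]
  set g : (LaurentSeries F)[X] := p * (∏ j ∈ range E, (X - Polynomial.C (TT F ^ (q ^ j)))) ^ n *
    C0.map (algebraMap F _) with hg
  have hgd : g.natDegree ≤ D + n * E + C0.natDegree := by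
    refine natDegree_mul_le.trans (Nat.add_le_add (natDegree_mul_le.trans (Nat.add_le_add_left
      (natDegree_pow_le.trans (Nat.mul_le_mul_left _ ?_)) _)) natDegree_map_le)
    refine (natDegree_prod_le _ _).trans (le_of_eq ?_)
    simp only [natDegree_X_sub_C, sum_const, card_range, smul_eq_mul, mul_one]
  set H := ph F E p * Pi0 F E ^ n * aeval (TT F) C0 with hH
  have hHg : ph F E g = H := by
    rw [hg, map_mul, map_mul, map_pow, map_prod, ph_map, hH, Pi0]
    simp only [map_sub, ph_X, ph_C, yy, hq]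
  set π := ph F E p * Pi0 F E ^ n with hπ
  have hπA : π ∈ A F := mul_mem (ph_mem fun i => (hc i).1) (pow_mem (Pi0_mem E) _)
  -- the terms of the exponential
  set P : ℕ → LaurentSeries F := fun j =>
    s ^ (q ^ j) / Dg F (TT F) j * RR F E (H * (yy F E j - TT F)⁻¹) with hP
  have hPj : ∀ j, RR F E (H * (l * (s ^ (q ^ (j + E)) / Dg F (TT F) (j + E)))) = P j := fun j =>
    pf E' H (fun v h1 h2 w => by
      rw [← hk1 v h1 h2 w, hH, hC0e]; congr 1; rw [hn, pow_succ l]; ring) s j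
  have hPres : ∀ j, P j = s ^ (q ^ j) / Dg F (TT F) j *
      (TT F * g.eval (TT F ^ (q ^ j)) / (yy F E j - TT F)) := fun j => by
    simp only [hP]
    rw [← hHg, yy, RR_res (by linarith only [hgd, hC0d, H1, hn, show n * S = (m + 1) * S from rfl, Nat.zero_le C.natDegree, Nat.zero_le δ.natAbs, Nat.zero_le E', Nat.zero_le m])
      (Nat.one_lt_pow (by omega) Fintype.one_lt_card) _ (ne_of_v (v_Ty hE1 j))]
  set b0 : ℤ := Q * uu F * (D + n * E + n * S - Q - E - n + 1) + δ * Q + uu F with hb0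
  obtain ⟨e, he, he1, he2⟩ : ∃ e : ℤ, Valued.v (P E) = exp e ∧ b0 ≤ e ∧ e < 0 := by
    obtain ⟨e1, h1, h2, h3⟩ := v_eval hp hc (by linarith) (by linarith) (v_x (F := F) E)
    obtain ⟨e2, h4⟩ := exists_v_eq (aeval_ne hC)
    have h5 : 0 ≤ e2 := by
      have := one_le_v (aeval_mem C) (aeval_ne hC)
      rwa [h4, ← exp_zero, exp_le_exp] at this
    have h6 : e2 ≤ C.natDegree * uu F := by
      have := v_aeval C
      rwa [h4, exp_le_exp] at this
    have h7 : Valued.v (∏ j ∈ range E, (TT F ^ (q ^ E) - TT F ^ (q ^ j))) =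
        exp (E * Q * uu F) := v_Dg E
    have h8 : Valued.v (aeval (TT F) C0) = exp (e2 + S * uu F + m * (Q - q)) := by
      rw [hC0e, map_mul, map_mul, h4, v_pow_eq (v_lg E'),
        v_pow_eq (show Valued.v (-TT F) = exp (uu F) by rw [Valuation.map_neg, v_T]),
        ← exp_add, ← exp_add]
    refine ⟨(δ - E * uu F) * Q + (uu F + (e1 + n * (E * Q * uu F) +
      Q * (e2 + S * uu F + m * (Q - q))) - Q * Q * uu F), ?_, ?_, ?_⟩
    · rw [hPres, map_mul, v_tau hδ, map_div₀, v_Ty hE1, map_mul, v_T, hg, eval_mul, eval_mul,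
        eval_pow, eval_prod, eval_map_algebraMap, aeval_frob, map_mul, map_mul, h1]
      simp only [eval_sub, eval_X, eval_C]
      rw [v_pow_eq h7, v_pow_eq h8, ← exp_add, ← exp_add, ← exp_add, ← exp_sub, ← exp_add]
      push_cast; rfl
    · have h9 : Q - q = uu F * (S - 1) := by linarith
      have h10 := mul_le_mul_of_nonneg_left h5 (show 0 ≤ Q by linarith)
      rw [hb0, h9, hnZ]
      linarith
    · have h9 : Q - q = uu F * (S - 1) := by linarith
      have h10 := mul_le_mul_of_nonneg_left h6 (show 0 ≤ Q by linarith)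
      have h11 : uu F * (D + n * E + n * S - Q - E - n + 3 + C.natDegree) + δ ≤ 0 :=
        umul hu hd1 hd3 (by linarith)
      have h12 := mul_le_mul_of_nonneg_left h11 (show 0 ≤ Q by linarith)
      rw [h9]
      rw [hnZ] at h12 ⊢
      linarith
  have hPo : ∀ j, j ≠ E → Valued.v (P j) ≤ exp (b0 - 1) := by
    intro j hj
    rcases lt_or_gt_of_ne hj with hj | hj
    · rw [hPres, hg, eval_mul, eval_mul, eval_pow, eval_prod,
        Finset.prod_eq_zero (mem_range.2 hj) (by simp)]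
      simp [hn]
    · have hρ2 : Q * uu F ≤ q * Q * uu F := by nlinarith only [hρ, hu, hq2]
      have hj2 : q * Q * uu F ≤ (q : ℤ) ^ j * uu F := by
        refine mul_le_mul_of_nonneg_right ?_ (by linarith)
        rw [hQ, ← pow_succ']; exact qpow_le hj
      have h1 := W_mul (W_mul (W_mul (W_ph (E := E) (hρ.trans hρ2) fun i => (hc i).2)
        (W_pow (Pi0_W (E := E) hρ2) n)) (W_aeval (hρ.trans hρ2) C0))
        (W_mono (d' := 0) (W_yinv hE1 hj2) (by linarith))
      have h2 := W_R h1 (hρu.trans (mul_le_mul_of_nonneg_left hρ2 (by linarith)))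
      have h3 : Valued.v (s ^ (q ^ j) / Dg F (TT F) j) ≤ exp (0 : ℤ) := by
        rw [v_tau hδ, exp_le_exp]
        have : (E : ℤ) < j := by exact_mod_cast hj
        have h4 : (j : ℤ) ≤ j * uu F := by nlinarith only [this, hu, hEZ, hE0]
        exact mul_nonpos_of_nonpos_of_nonneg (by linarith) (by positivity)
      refine (v_mul_le h3 h2).trans (exp_le_exp.2 ?_)
      have h4 : (C0.natDegree : ℤ) + m ≤ C.natDegree + (m + 1) * S := by exact_mod_cast hC0d
      have h5 : (D : ℤ) + n * E + C0.natDegree - Q + 1 ≤ D + n * E + n * S - Q + C.natDegree := by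
        linarith
      have h6 : (D : ℤ) + n * E + n * S - Q + C.natDegree ≤ 0 := by linarith
      have h7 : (q : ℤ) * (D + n * E + C0.natDegree - Q + 1) ≤
          2 * (D + n * E + n * S - Q + C.natDegree) := by nlinarith only [h5, h6, hq2, hu]
      have h8 : uu F * (1 + 2 * (D + n * E + n * S - Q + C.natDegree) -
          (D + n * E + n * S - Q - E - n + 1)) + -δ ≤ 0 :=
        umul hu (by linarith) hd3 (by linarith)
      have h9 := mul_le_mul_of_nonneg_left h8 (show 0 ≤ Q by linarith)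
      have h10 := mul_le_mul_of_nonneg_left h7 hρ
      rw [hb0, ← hQ, ← hD]
      linarith
  -- the tails of the polylogarithms
  have hpW := W_ph (E := E) hρ fun i => (hc i).2
  have hM : ∀ (w : LaurentSeries F) (k : F[X]), Valued.v w ≤ exp ((n : ℤ) * q - 1) →
      k.natDegree ≤ C.natDegree + a.natDegree + S → ∀ j, Valued.v (RR F E (π * aeval (TT F) k *
        (l ^ n * (w ^ (q ^ (j + E)) / lg F (TT F) (j + E) ^ n)))) ≤ exp (b0 - 2) := by
    intro w k hw hk j
    have h1 := W_R (W_mul (W_mul hpW (W_aeval hρ k)) (tailW hE1 hw j)) hρu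
    rw [Li_term, hπ, mul_right_comm (ph F E p), mul_assoc]
    refine h1.trans (exp_le_exp.2 ?_)
    have h2 : (k.natDegree : ℤ) ≤ C.natDegree + a.natDegree + S := by exact_mod_cast hk
    have h3 : uu F * (2 + k.natDegree - (n * S - E - n + 1)) + (n * q + 1 - δ) ≤ 0 :=
      umul (k' := n * q + 1 + |δ|) hu (by linarith) (by linarith) (by linarith)
    have h9 := mul_le_mul_of_nonneg_left h3 (show 0 ≤ Q by linarith)
    rw [hb0, ← hQ, ← hD, ← hq]
    linarith
  have hL : ∀ B, E ≤ B → Valued.v (RR F E (π * aeval (TT F) b *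
      (l ^ n * pig (F := F) (TT F - algebraMap F _ c) (E' + B) ^ n))) ≤ exp (b0 - 2) := by
    intro B hB
    have h1 := W_R (W_mul (W_mul hpW (W_aeval hρ b)) (W_pow (piW E' c hB) n)) hρu
    have h2 : π * aeval (TT F) b * (l ^ n * pig (F := F) (TT F - algebraMap F _ c) (E' + B) ^ n) =
        ph F E p * aeval (TT F) b *
          (Pi0 F E * l * pig (F := F) (TT F - algebraMap F _ c) (E' + B)) ^ n := by
      rw [hπ]; ring
    rw [h2]
    refine h1.trans (exp_le_exp.2 ?_)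
    have h9 : Q - q = uu F * (S - 1) := by linarith
    have h3 : uu F * (1 + b.natDegree - m * E) + (n + 1 - δ) ≤ 0 :=
      umul (k' := n + 1 + |δ|) hu (by linarith) (by linarith) (by linarith)
    have h10 := mul_le_mul_of_nonneg_left h3 (show 0 ≤ Q by linarith)
    rw [hb0, ← hE, ← hq, ← hQ, ← hD, h9]
    rw [hnZ] at h10 ⊢
    linarith
  -- truncation
  have h1z : Valued.v (1 : LaurentSeries F) ≤ exp ((n : ℤ) * q - 1) := by
    rw [map_one, ← exp_zero, exp_le_exp]; nlinarith only [hnZ, hm', hq2, hu]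
  obtain ⟨N1, hN1⟩ := small E (H * l) (b0 - 2)
  obtain ⟨N3, hN3⟩ := small E (π * aeval (TT F) a * l ^ n) (b0 - 2)
  obtain ⟨N4, hN4⟩ := small E (π * aeval (TT F) b * l ^ n) (b0 - 2)
  obtain ⟨B', hB1, hB2, hB3, hB4, hB5⟩ := ((approx (summable_ex s) N1).and
    ((approx (summable_Li hz) N1).and ((approx (summable_Li h1z) N3).and
    ((approx (summable_Lv (n := n) (by omega) c) N4).and (eventually_ge_atTop (2 * E + 1)))))).exists
  obtain ⟨B, rfl⟩ : ∃ B, B' = E' + 1 + B := ⟨B' - E, by omega⟩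
  rw [← ex, ← hzd] at hB1
  rw [← Li] at hB2 hB3
  rw [← Lv, show E' + 1 + B = E' + B + 1 by ring, sum_chi c (ne_of_v
    (v_sub_eq v_T (v_c c) (by omega))) lg_ne Dg_ne (by omega) hmq] at hB4
  rw [← zeta_eq (by omega) hmq] at hB3
  have hHl : H * l = π * aeval (TT F) C1 * l ^ n := by
    rw [hH, hC0e, hC1e, hn, pow_succ l]; ring
  have eL := eL_gen (Lz := Li F n z) (z := z) E' B (H * l) (fun i => s ^ (q ^ i) / Dg F (TT F) i)
    (fun i => z ^ (q ^ i) / lg F (TT F) i ^ n) (by simp [lg])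
    (fun i hi => by
      rw [← hk1 (i + 1) (Nat.succ_pos i) (Nat.succ_lt_succ hi) s, hHl, hC1e, hπ]
      congr 1; ring)
    (fun i hi => by
      rw [← hk2 (i + 1) (Nat.succ_pos i) (Nat.succ_lt_succ hi) z, hHl, hC1e, hπ]
      congr 1; ring)
  have e1 : ∀ j, RR F E (H * l * (s ^ (q ^ (j + E)) / Dg F (TT F) (j + E))) = P j := fun j => by
    rw [mul_assoc H l, hPj]
  have e2 : ∀ w, H * l * w = π * aeval (TT F) C1 * (l ^ n * w) := fun w => by
    rw [hHl, mul_assoc _ (l ^ n)]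
  have e3 : s ^ (q ^ 0) / Dg F (TT F) 0 = s := by simp [Dg]
  have eth : th F * (-TT F) ^ S = th F ^ (q ^ E) := by
    rw [TT, neg_neg, ← pow_mul, ← hq, ← hSQ', pow_succ']
  obtain ⟨a0, ha0, eR⟩ := eR_gen E' B n (r := aeval (TT F) r) (b := aeval (TT F) b)
    (ζ := zeta F n) (L := Lv F n c) (w := pig (F := F) (TT F - algebraMap F _ c) (E' + B) ^ n)
    hπA (aeval_mem a) (aeval_mem r)
  have e4 : H * l * (Li F n z - s) = th F ^ (q ^ E) * (π * l ^ n *
      (aeval (TT F) r + aeval (TT F) a * zeta F n + aeval (TT F) b * Lv F n c)) := by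
    rw [hHl, hC1e, ← eth]
    linear_combination π * (-TT F) ^ S * l ^ n * hrel
  beta_reduce at eL
  rw [← hE, Finset.sum_congr rfl fun j _ => e1 j, e3, e4, RR_semi, eR, mul_add] at eL
  have hB : E < B := by omega
  exact fin_gen hB ha0 eL he he1 he2 hPo
    (fun j => by rw [e2]; exact hM z C1 hz (hC1d.trans (by omega)) j)
    (fun j => hM 1 a h1z (by omega) j) (hN1 _ hB1) (hN1 _ hB2) (hN3 _ hB3) (hL B hB.le)
    (hN4 _ hB4)

end Pool.Agent.PL
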