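import Pool.Agent.Lib.MP_67d7ce_nt.Zeta
import Pool.Agent.Lib.MP_0370b2_nt.CS.An
import Pool.Agent.Lib.MP_0370b2_nt.CS.Sieg

/-! The residue operator `R`, the twisted evaluation `φ` and the Gauss-type filtrations `W`. -/

namespace Pool.Agent.PL

open Finset WithZero Pool.Agent.Carl Polynomial
open Pool.Agent.CarlAn (v_mul_le v_pow_eq v_pow_le v_add_eq_left)

set_option linter.unusedSectionVars false

variable (F : Type) [Field F] [Fintype F]

/-- `T = -ι^(q-1)` with `ι = 1 / X`. -/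
noncomputable def TT : LaurentSeries F := -(th F ^ (Fintype.card F - 1))

/-- `u = q - 1`. -/
def uu : ℤ := (Fintype.card F : ℤ) - 1

noncomputable def RR (E : ℕ) (z : LaurentSeries F) : LaurentSeries F := U F E 0 (TT F * z)

noncomputable def fr (E : ℕ) : LaurentSeries F →+* LaurentSeries F :=
  Classical.choose (exists_frob (F := F) E)

noncomputable def ph (E : ℕ) : (LaurentSeries F)[X] →+* LaurentSeries F :=
  eval₂RingHom (fr F E) (TT F)

noncomputable def W (E : ℕ) (ρ d : ℤ) : AddSubgroup (LaurentSeries F) :=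
  AddSubgroup.closure {y | ∃ (k : LaurentSeries F) (m : ℕ), Valued.v k ≤ exp (d - ρ * m) ∧
    y = k ^ (Fintype.card F ^ E) * TT F ^ m}

variable {F}

theorem uu_pos : 1 ≤ uu F := by
  have : 1 < Fintype.card F := Fintype.one_lt_card
  rw [uu]; omega

theorem uu_cast : ((Fintype.card F - 1 : ℕ) : ℤ) = uu F := by
  have : 1 < Fintype.card F := Fintype.one_lt_card
  rw [uu]; omega

theorem v_T : Valued.v (TT F) = exp (uu F) := by
  rw [TT, Valuation.map_neg, v_th_pow, uu_cast]

theorem v_Tp (k : ℕ) : Valued.v (TT F ^ k) = exp (k * uu F) := v_pow_eq v_T k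

theorem ne_of_v {z : LaurentSeries F} {d : ℤ} (h : Valued.v z = exp d) : z ≠ 0 := by
  rw [← Valuation.ne_zero_iff Valued.v, h]; exact exp_ne_zero

theorem T_ne : TT F ≠ 0 := ne_of_v v_T

theorem T_mem : TT F ∈ A F := neg_mem (pow_mem th_mem _)

theorem v_sub_eq {a b : LaurentSeries F} {x y : ℤ} (ha : Valued.v a = exp x)
    (hb : Valued.v b ≤ exp y) (h : y < x) : Valued.v (a - b) = exp x := by
  rw [sub_eq_add_neg]
  exact v_add_eq_left ha (by rwa [Valuation.map_neg]) h

theorem v_Tsub {a b : ℕ} (h : b < a) : Valued.v (TT F ^ a - TT F ^ b) = exp (a * uu F) :=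
  v_sub_eq (v_Tp a) (v_Tp b).le (by
    have := uu_pos (F := F)
    have : (b : ℤ) < a := by exact_mod_cast h
    nlinarith)

theorem v_Tsub1 {a : ℕ} (h : 1 < a) : Valued.v (TT F ^ a - TT F) = exp (a * uu F) := by
  simpa using v_Tsub (F := F) h

theorem v_Dg (i : ℕ) :
    Valued.v (Dg F (TT F) i) = exp (i * (Fintype.card F : ℤ) ^ i * uu F) := by
  rw [Dg, map_prod, Finset.prod_congr rfl fun u hu => v_Tsub (q_lt (mem_range.1 hu)),
    Finset.prod_const, card_range, ← exp_nsmul]
  congr 1; simp; ring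

theorem v_lg (d : ℕ) :
    Valued.v (lg F (TT F) d) = exp ((Fintype.card F : ℤ) ^ (d + 1) - Fintype.card F) := by
  induction d with
  | zero => simp [lg]
  | succ d ih =>
    rw [lg_succ, map_mul, ih, Valuation.map_sub_swap,
      v_Tsub1 (Nat.one_lt_pow (by omega) Fintype.one_lt_card), ← exp_add]
    congr 1; rw [uu]; push_cast; ring

theorem Dg_ne (i : ℕ) : Dg F (TT F) i ≠ 0 := ne_of_v (v_Dg i)
theorem lg_ne (i : ℕ) : lg F (TT F) i ≠ 0 := ne_of_v (v_lg i)

theorem Dg_mem (i : ℕ) : Dg F (TT F) i ∈ A F :=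
  prod_mem fun _ _ => sub_mem (pow_mem T_mem _) (pow_mem T_mem _)

theorem lg_mem (i : ℕ) : lg F (TT F) i ∈ A F :=
  prod_mem fun _ _ => sub_mem T_mem (pow_mem T_mem _)

theorem aeval_mem (g : F[X]) : aeval (TT F) g ∈ A F :=
  Algebra.adjoin_le (S := A F) (s := {TT F}) (by simpa using T_mem)
    (Polynomial.aeval_mem_adjoin_singleton F _)

theorem v_c (c : F) : Valued.v (algebraMap F (LaurentSeries F) c) ≤ exp (0 : ℤ) := by
  refine v_le_iff.2 fun n hn => ?_
  rw [LaurentSeries.algebraMap_apply, HahnSeries.C_apply,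
    HahnSeries.coeff_single_of_ne (by omega)]

theorem v_aeval (g : F[X]) : Valued.v (aeval (TT F) g) ≤ exp (g.natDegree * uu F) := by
  rw [aeval_eq_sum_range]
  refine Valuation.map_sum_le _ fun i hi => ?_
  rw [Algebra.smul_def]
  refine (v_mul_le (v_c _) (v_Tp i).le).trans ?_
  rw [exp_le_exp]
  have h1 : (i : ℤ) ≤ g.natDegree := by have := mem_range.1 hi; omega
  have := uu_pos (F := F)
  nlinarith

variable {E : ℕ}

theorem fr_apply (z : LaurentSeries F) : fr F E z = z ^ (Fintype.card F ^ E) :=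
  Classical.choose_spec (exists_frob (F := F) E) z

theorem ph_C (a : LaurentSeries F) : ph F E (C a) = a ^ (Fintype.card F ^ E) := by
  simp [ph, fr_apply]

theorem ph_X : ph F E X = TT F := by simp [ph]

theorem ph_map (g : F[X]) : ph F E (g.map (algebraMap F _)) = aeval (TT F) g := by
  rw [ph, coe_eval₂RingHom, eval₂_map, aeval_def]
  congr 1
  ext c : 1
  simp [fr_apply, frn_c]

theorem ph_sum (g : (LaurentSeries F)[X]) : ph F E g =
    ∑ i ∈ range (g.natDegree + 1), g.coeff i ^ (Fintype.card F ^ E) * TT F ^ i := by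
  rw [ph, coe_eval₂RingHom, eval₂_eq_sum_range]
  simp only [fr_apply]

theorem RR_add (a b : LaurentSeries F) : RR F E (a + b) = RR F E a + RR F E b := by
  simp only [RR, mul_add, map_add]

theorem RR_neg (a : LaurentSeries F) : RR F E (-a) = -RR F E a := by
  simp only [RR, mul_neg, map_neg]

theorem RR_sum {ι : Type} (s : Finset ι) (f : ι → LaurentSeries F) :
    RR F E (∑ i ∈ s, f i) = ∑ i ∈ s, RR F E (f i) := by
  simp only [RR, Finset.mul_sum, map_sum]

theorem RR_semi (k z : LaurentSeries F) :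
    RR F E (k ^ (Fintype.card F ^ E) * z) = k * RR F E z := by
  rw [RR, mul_left_comm, U_semi (q_pos E), RR]

theorem RR_mem {z : LaurentSeries F} (hz : z ∈ A F) : RR F E z ∈ A F :=
  U_mem (q_pos E) (mul_mem T_mem hz)

theorem RR_val {z : LaurentSeries F} (d : ℤ)
    (h : Valued.v z ≤ exp ((Fintype.card F : ℤ) ^ E * d - uu F)) :
    Valued.v (RR F E z) ≤ exp d := by
  refine U_val d ((v_mul_le v_T.le h).trans (le_of_eq ?_))
  congr 1; push_cast; ring

theorem RR_T0 {m : ℕ} (h : ¬ Fintype.card F ^ E ∣ m + 1) : RR F E (TT F ^ m) = 0 := by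
  have h1 : U F E 0 (th F ^ ((Fintype.card F - 1) * (m + 1))) = 0 := by
    ext k
    rw [U_coeff, th_pow, HahnSeries.coeff_single_of_ne]
    · simp
    · intro h2
      apply h
      have h3 : Fintype.card F ^ E ∣ (Fintype.card F - 1) * (m + 1) := by
        rw [← Int.natCast_dvd_natCast]
        exact ⟨-k, by push_cast at h2 ⊢; linarith⟩
      refine Nat.Coprime.dvd_of_dvd_mul_left (Nat.Coprime.pow_left E ?_) h3
      have : 0 < Fintype.card F := Fintype.card_pos
      exact (Nat.coprime_self_sub_right (m := 1) this).2 (Nat.coprime_one_right _)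
  rw [RR, ← pow_succ', TT, neg_pow, ← pow_mul]
  rcases neg_one_pow_eq_or (LaurentSeries F) (m + 1) with h2 | h2 <;> simp [h2, h1]

theorem RR_T1 {m i : ℕ} (h : m + 1 = Fintype.card F ^ E * i) : RR F E (TT F ^ m) = TT F ^ i := by
  have := U_key (F := F) (q_pos E) (q_pos E) (TT F ^ i)
  rw [pow_zero, one_mul, if_pos rfl, ← pow_mul] at this
  rw [RR, ← pow_succ', h, mul_comm, this]

theorem RR_ph {g : (LaurentSeries F)[X]} (h : g.natDegree + 2 ≤ Fintype.card F ^ E) :
    RR F E (ph F E g) = 0 := by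
  rw [ph_sum, RR_sum]
  refine Finset.sum_eq_zero fun i hi => ?_
  have := mem_range.1 hi
  rw [RR_semi, RR_T0 (Nat.not_dvd_of_pos_of_lt (by omega) (by omega)), mul_zero]

theorem inv_expand (x : LaurentSeries F) (hc : x ^ (Fintype.card F ^ E) - TT F ≠ 0) :
    (x ^ (Fintype.card F ^ E) - TT F)⁻¹ = ∑ i ∈ range (Fintype.card F ^ E),
      (x ^ (Fintype.card F ^ E - 1 - i) / (x ^ (Fintype.card F ^ E) - TT F)) ^
        (Fintype.card F ^ E) * TT F ^ i := by
  have h1 := geom_sum₂_mul (TT F) (x ^ (Fintype.card F ^ E)) (Fintype.card F ^ E)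
  have h2 := frob_sub E (x ^ (Fintype.card F ^ E)) (TT F)
  have h4 : ∀ i, (x ^ (Fintype.card F ^ E - 1 - i) / (x ^ (Fintype.card F ^ E) - TT F)) ^
        (Fintype.card F ^ E) * TT F ^ i =
      TT F ^ i * (x ^ (Fintype.card F ^ E)) ^ (Fintype.card F ^ E - 1 - i) /
        (x ^ (Fintype.card F ^ E) - TT F) ^ (Fintype.card F ^ E) := by
    intro i
    rw [div_pow, ← pow_mul, ← pow_mul, mul_comm (Fintype.card F ^ E - 1 - i), mul_div_assoc,
      mul_comm]
  rw [Finset.sum_congr rfl fun i _ => h4 i, ← Finset.sum_div, eq_div_iff (pow_ne_zero _ hc),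
    inv_mul_eq_iff_eq_mul₀ hc, h2]
  linear_combination h1

theorem RR_res {g : (LaurentSeries F)[X]} (h : g.natDegree + 1 ≤ Fintype.card F ^ E)
    (h2 : 2 ≤ Fintype.card F ^ E) (x : LaurentSeries F)
    (hc : x ^ (Fintype.card F ^ E) - TT F ≠ 0) :
    RR F E (ph F E g * (x ^ (Fintype.card F ^ E) - TT F)⁻¹) =
      TT F * g.eval x / (x ^ (Fintype.card F ^ E) - TT F) := by
  have h1 : RR F E (x ^ (Fintype.card F ^ E) - TT F)⁻¹ =
      TT F / (x ^ (Fintype.card F ^ E) - TT F) := by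
    conv_lhs => rw [inv_expand x hc]
    rw [RR_sum, Finset.sum_eq_single (Fintype.card F ^ E - 1)]
    · rw [RR_semi, RR_T1 (i := 1) (by omega), Nat.sub_self, pow_zero, pow_one]; ring
    · intro i hi hne
      have := mem_range.1 hi
      rw [RR_semi, RR_T0 (Nat.not_dvd_of_pos_of_lt (by omega) (by omega)), mul_zero]
    · intro h3
      exact absurd (mem_range.2 (by omega)) h3
  have h3 : g = (X - C x) * (g /ₘ (X - C x)) + C (g.eval x) := by
    have := modByMonic_add_div g (X - C x)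
    rw [modByMonic_X_sub_C_eq_C_eval] at this
    linear_combination -this
  have h4 : (g /ₘ (X - C x)).natDegree + 2 ≤ Fintype.card F ^ E := by
    rw [natDegree_divByMonic _ (monic_X_sub_C x), natDegree_X_sub_C]; omega
  have h5 : ph F E g * (x ^ (Fintype.card F ^ E) - TT F)⁻¹ = -ph F E (g /ₘ (X - C x)) +
      (g.eval x) ^ (Fintype.card F ^ E) * (x ^ (Fintype.card F ^ E) - TT F)⁻¹ := by
    conv_lhs => rw [h3]
    rw [map_add, map_mul, map_sub, ph_X, ph_C, ph_C]
    field_simp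
    ring
  rw [h5, RR_add, RR_neg, RR_ph h4, RR_semi, h1]
  ring

variable {ρ d d' : ℤ}

theorem W_gen {k : LaurentSeries F} {m : ℕ} (h : Valued.v k ≤ exp (d - ρ * m)) :
    k ^ (Fintype.card F ^ E) * TT F ^ m ∈ W F E ρ d :=
  AddSubgroup.subset_closure ⟨k, m, h, rfl⟩

theorem W_mono {y : LaurentSeries F} (hy : y ∈ W F E ρ d) (h : d ≤ d') : y ∈ W F E ρ d' := by
  refine AddSubgroup.closure_mono ?_ hy
  rintro _ ⟨k, m, hk, rfl⟩
  exact ⟨k, m, hk.trans (exp_le_exp.2 (by linarith)), rfl⟩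

theorem W_mul {y y' : LaurentSeries F} (hy : y ∈ W F E ρ d) (hy' : y' ∈ W F E ρ d') :
    y * y' ∈ W F E ρ (d + d') := by
  induction hy using AddSubgroup.closure_induction with
  | mem a ha =>
    obtain ⟨k, m, hk, rfl⟩ := ha
    induction hy' using AddSubgroup.closure_induction with
    | mem b hb =>
      obtain ⟨k', m', hk', rfl⟩ := hb
      have : k ^ (Fintype.card F ^ E) * TT F ^ m * (k' ^ (Fintype.card F ^ E) * TT F ^ m') =
          (k * k') ^ (Fintype.card F ^ E) * TT F ^ (m + m') := by rw [mul_pow, pow_add]; ring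
      rw [this]
      refine W_gen ((v_mul_le hk hk').trans (le_of_eq ?_))
      congr 1; push_cast; ring
    | zero => rw [mul_zero]; exact zero_mem _
    | add a b _ _ ha hb => rw [mul_add]; exact add_mem ha hb
    | neg a _ ha => rw [mul_neg]; exact neg_mem ha
  | zero => rw [zero_mul]; exact zero_mem _
  | add a b _ _ ha hb => rw [add_mul]; exact add_mem ha hb
  | neg a _ ha => rw [neg_mul]; exact neg_mem ha

theorem W_frob {k : LaurentSeries F} (h : Valued.v k ≤ exp d) :
    k ^ (Fintype.card F ^ E) ∈ W F E ρ d := by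
  simpa using W_gen (E := E) (ρ := ρ) (d := d) (k := k) (m := 0) (by simpa using h)

theorem W_one : (1 : LaurentSeries F) ∈ W F E ρ 0 := by
  simpa using W_frob (E := E) (ρ := ρ) (d := 0) (k := (1 : LaurentSeries F)) (by simp)

theorem W_T (m : ℕ) : TT F ^ m ∈ W F E ρ (ρ * m) := by
  simpa using W_gen (E := E) (ρ := ρ) (d := ρ * m) (k := (1 : LaurentSeries F)) (m := m) (by simp)

theorem W_pow {y : LaurentSeries F} (hy : y ∈ W F E ρ d) (n : ℕ) : y ^ n ∈ W F E ρ (n * d) := by
  induction n with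
  | zero => simpa using W_one
  | succ n ih =>
    rw [pow_succ]
    exact W_mono (W_mul ih hy) (le_of_eq (by push_cast; ring))

theorem W_prod {ι : Type} (s : Finset ι) (f : ι → LaurentSeries F) (δ : ι → ℤ)
    (h : ∀ i ∈ s, f i ∈ W F E ρ (δ i)) : ∏ i ∈ s, f i ∈ W F E ρ (∑ i ∈ s, δ i) := by
  classical
  induction s using Finset.induction_on with
  | empty => simpa using W_one
  | insert a s ha ih =>
    rw [Finset.prod_insert ha, Finset.sum_insert ha]
    exact W_mul (h a (mem_insert_self _ _)) (ih fun i hi => h i (mem_insert_of_mem hi))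

theorem W_ph {g : (LaurentSeries F)[X]} {h : ℤ} (hρ : 0 ≤ ρ)
    (hg : ∀ i, Valued.v (g.coeff i) ≤ exp h) : ph F E g ∈ W F E ρ (h + ρ * g.natDegree) := by
  rw [ph_sum]
  refine sum_mem fun i hi => W_gen ((hg i).trans (exp_le_exp.2 ?_))
  have h1 : (i : ℤ) ≤ g.natDegree := by have := mem_range.1 hi; omega
  nlinarith

theorem W_aeval (hρ : 0 ≤ ρ) (g : F[X]) : aeval (TT F) g ∈ W F E ρ (ρ * g.natDegree) := by
  have := W_ph (E := E) (g := g.map (algebraMap F (LaurentSeries F))) (h := 0) hρ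
    fun i => by rw [coeff_map]; exact v_c _
  rwa [ph_map, zero_add, natDegree_map] at this

theorem W_inv {x : LaurentSeries F} {ξ : ℤ} (hx : Valued.v x = exp ξ) (hρ : ρ ≤ ξ)
    (hu : uu F < (Fintype.card F : ℤ) ^ E * ξ) :
    (x ^ (Fintype.card F ^ E) - TT F)⁻¹ ∈ W F E ρ (-ξ) := by
  have h1 : Valued.v (x ^ (Fintype.card F ^ E) - TT F) = exp ((Fintype.card F ^ E : ℕ) * ξ) :=
    v_sub_eq (v_pow_eq hx _) v_T.le (by push_cast; exact hu)
  rw [inv_expand x (ne_of_v h1)]
  refine sum_mem fun i hi => W_gen ?_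
  have h2 := mem_range.1 hi
  rw [map_div₀, v_pow_eq hx, h1, ← exp_sub, exp_le_exp]
  have h3 : ((Fintype.card F ^ E - 1 - i : ℕ) : ℤ) = (Fintype.card F ^ E : ℕ) - 1 - i := by omega
  have h4 : (0 : ℤ) ≤ i := Int.natCast_nonneg i
  rw [h3]
  nlinarith

theorem W_R {y : LaurentSeries F} (hy : y ∈ W F E ρ d)
    (hu : uu F ≤ (Fintype.card F : ℤ) ^ E * ρ) :
    Valued.v (RR F E y) ≤ exp (d - ρ * ((Fintype.card F : ℤ) ^ E - 1) + uu F) := by
  induction hy using AddSubgroup.closure_induction with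
  | mem a ha =>
    obtain ⟨k, m, hk, rfl⟩ := ha
    rw [RR_semi]
    by_cases h : Fintype.card F ^ E ∣ m + 1
    · obtain ⟨i, hi⟩ := h
      rw [RR_T1 hi]
      refine (v_mul_le hk (v_Tp i).le).trans (exp_le_exp.2 ?_)
      have h1 : (m : ℤ) = (Fintype.card F : ℤ) ^ E * i - 1 := by
        have : ((m + 1 : ℕ) : ℤ) = ((Fintype.card F ^ E * i : ℕ) : ℤ) := by rw [hi]
        push_cast at this; linarith
      have h2 : (1 : ℤ) ≤ i := by
        rcases Nat.eq_zero_or_pos i with h0 | h0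
        · rw [h0] at hi; omega
        · exact_mod_cast h0
      rw [h1]
      nlinarith [mul_le_mul_of_nonneg_left hu (sub_nonneg.2 h2)]
    · rw [RR_T0 h]; simp
  | zero => simp [RR]
  | add a b _ _ ha hb => rw [RR_add]; exact Valuation.map_add_le _ ha hb
  | neg a _ ha => rwa [RR_neg, Valuation.map_neg]

end Pool.Agent.PL
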