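import Pool.Agent.Lib.MP_67d7ce_nt.RW

/-! The auxiliary polynomial (counting over the finite field) and simple fractions. -/

namespace Pool.Agent.PL

open Finset WithZero Pool.Agent.Carl Polynomial
open Pool.Agent.CarlAn (v_mul_le v_pow_eq v_pow_le v_add_eq_left)

set_option linter.unusedSectionVars false

variable {F : Type} [Field F] [Fintype F]

theorem siegel_gen {ι : Type} [Fintype ι] (M h : ℕ) (B : ι → ℕ → LaurentSeries F) (δ : ι → ℕ)
    (hB : ∀ i, ∀ k < M, B i k ∈ A F ∧ Valued.v (B i k) ≤ exp (δ i : ℤ))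
    (hc : ∑ i, (h + δ i + 1) < M * (h + 1)) :
    ∃ lam : ℕ → LaurentSeries F, (∀ r, lam r ∈ A F ∧ Valued.v (lam r) ≤ exp (h : ℤ)) ∧
      (∃ r < M, lam r ≠ 0) ∧ ∀ i, ∑ k ∈ range M, lam k * B i k = 0 := by
  classical
  let L : (Fin M × Fin (h + 1) → F) → ℕ → LaurentSeries F := fun c r =>
    if hr : r < M then
      ∑ t : Fin (h + 1), HahnSeries.single (-((t : ℕ) : ℤ)) (c (⟨r, hr⟩, t)) else 0
  have hL : ∀ c r, L c r ∈ A F ∧ Valued.v (L c r) ≤ exp (h : ℤ) := by
    intro c r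
    simp only [L]
    split_ifs with hr
    · exact poly_bd fun t => c (⟨r, hr⟩, t)
    · exact ⟨zero_mem _, by simp⟩
  let Φ : (Fin M × Fin (h + 1) → F) → (Σ i : ι, Fin (h + δ i + 1)) → F := fun c x =>
    (∑ k ∈ range M, L c k * B x.1 k).coeff (-((x.2 : ℕ) : ℤ))
  obtain ⟨c, c', hne, hcc⟩ := Fintype.exists_ne_map_eq_of_card_lt Φ (by
    simp only [Fintype.card_fun, Fintype.card_sigma, Fintype.card_fin, Fintype.card_prod]
    exact Nat.pow_lt_pow_right Fintype.one_lt_card hc)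
  have hl : ∀ r, L c r - L c' r ∈ A F ∧ Valued.v (L c r - L c' r) ≤ exp (h : ℤ) := fun r =>
    ⟨sub_mem (hL c r).1 (hL c' r).1, Valuation.map_sub_le _ (hL c r).2 (hL c' r).2⟩
  refine ⟨fun r => L c r - L c' r, hl, ?_, fun i => ?_⟩
  · obtain ⟨⟨r, t⟩, hrt⟩ := Function.ne_iff.1 hne
    refine ⟨r, r.2, fun h0 => hrt ?_⟩
    have h1 := congrArg (fun z : LaurentSeries F => z.coeff (-((t : ℕ) : ℤ))) (sub_eq_zero.1 h0)
    simp only [L, dif_pos r.2] at h1
    rwa [poly_coeff fun t => c (⟨r, r.2⟩, t), poly_coeff fun t => c' (⟨r, r.2⟩, t)] at h1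
  · have h1 : ∑ k ∈ range M, (L c k - L c' k) * B i k ∈ A F :=
      sum_mem fun k hk => mul_mem (hl k).1 (hB i k (mem_range.1 hk)).1
    have h2 : Valued.v (∑ k ∈ range M, (L c k - L c' k) * B i k) ≤ exp ((h + δ i : ℕ) : ℤ) :=
      Valuation.map_sum_le _ fun k hk => by
        rw [Nat.cast_add]; exact v_mul_le (hl k).2 (hB i k (mem_range.1 hk)).2
    rw [A_eq_sum h1 h2]
    refine Finset.sum_eq_zero fun t ht => ?_
    have h3 : ∑ k ∈ range M, (L c k - L c' k) * B i k =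
        ∑ k ∈ range M, L c k * B i k - ∑ k ∈ range M, L c' k * B i k := by
      simp only [sub_mul, Finset.sum_sub_distrib]
    have h4 := congrFun hcc ⟨i, ⟨t, mem_range.1 ht⟩⟩
    simp only [Φ] at h4
    rw [h3, HahnSeries.coeff_sub, h4, sub_self, map_zero]

theorem kill (E M h g κ : ℕ) (hM : M ≤ Fintype.card F ^ E) (G : LaurentSeries F) (hG : G ∈ A F)
    (hGv : Valued.v G ≤ exp (((Fintype.card F ^ E * g : ℕ) : ℤ)))
    (Den : Bool → ℕ → LaurentSeries F)
    (hD : ∀ b v, v ≤ E → Den b v ∈ A F ∧ Den b v ≠ 0 ∧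
      Valued.v (Den b v) ≤ exp (((κ * Fintype.card F ^ v : ℕ) : ℤ)))
    (hc : 2 * ((∑ i ∈ range E, Fintype.card F ^ i) * (h + g + Fintype.card F + 1) +
      E * (κ * Fintype.card F ^ E)) < M * (h + 1)) :
    ∃ p : (LaurentSeries F)[X], p ≠ 0 ∧ p.natDegree < M ∧
      (∀ i, p.coeff i ∈ A F ∧ Valued.v (p.coeff i) ≤ exp (h : ℤ)) ∧
      ∀ b v, 1 ≤ v → v < E → ∀ z : LaurentSeries F,
        RR F E (ph F E p * (G / Den b v * z ^ (Fintype.card F ^ v))) = 0 := by
  set q := Fintype.card F with hqd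
  have hQ : 1 ≤ q ^ E := q_pos E
  have hq1 : 1 < q := Fintype.one_lt_card
  obtain ⟨lam, h1, h2, h3⟩ := siegel_gen (F := F) (ι := Bool × Σ u : Fin E, Fin (q ^ (E - 1 - u)))
    M h (fun x k => RR F E (TT F ^ k * (G * Den x.1 (x.2.1 + 1) ^ (q ^ E - 1) *
      (th F ^ (x.2.2 : ℕ)) ^ (q ^ (x.2.1 + 1 : ℕ)))))
    (fun x => g + κ * q ^ (x.2.1 + 1 : ℕ) + q) (fun x k hk => by
      obtain ⟨b, u, j⟩ := x
      have hu := u.2
      have hj := j.2
      obtain ⟨d1, -, d3⟩ := hD b (u + 1) hu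
      refine ⟨RR_mem (mul_mem (pow_mem T_mem _) (mul_mem (mul_mem hG (pow_mem d1 _))
        (pow_mem (pow_mem th_mem _) _))), RR_val _ ?_⟩
      have e1 : q ^ E = q ^ (E - 1 - u) * q ^ (u + 1 : ℕ) := by
        rw [← pow_add]; congr 1; omega
      have e2 : (j : ℕ) * q ^ (u + 1 : ℕ) ≤ q ^ E := by
        rw [e1]; exact Nat.mul_le_mul_right _ hj.le
      refine (v_mul_le (v_Tp k).le (v_mul_le (v_mul_le hGv (v_pow_le d3 _))
        (v_pow_le (v_th_pow _).le _))).trans (exp_le_exp.2 ?_)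
      have e3 : ((q ^ E - 1 : ℕ) : ℤ) ≤ (q : ℤ) ^ E := by
        have : ((q ^ E - 1 : ℕ) : ℤ) ≤ (q ^ E : ℕ) := by omega
        exact_mod_cast this
      have e4 : ((j : ℕ) : ℤ) * (q : ℤ) ^ (u + 1 : ℕ) ≤ (q : ℤ) ^ E := by exact_mod_cast e2
      have e5 : (k : ℤ) + 1 ≤ (q : ℤ) ^ E := by
        have : k + 1 ≤ q ^ E := by omega
        exact_mod_cast this
      have e6 := uu_pos (F := F)
      have e7 : (0 : ℤ) ≤ κ * (q : ℤ) ^ (u + 1 : ℕ) := by positivity
      have e8 := mul_le_mul_of_nonneg_right e3 e7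
      have e9 := mul_le_mul_of_nonneg_right e5 (show (0 : ℤ) ≤ uu F by linarith)
      have e10 : uu F = (q : ℤ) - 1 := rfl
      simp only [← hqd]
      push_cast at e8 ⊢
      rw [e10] at e9 ⊢
      nlinarith)
    (by
      refine lt_of_le_of_lt (le_of_eq ?_) hc
      rw [Fintype.sum_prod_type]
      simp only [Fintype.sum_sigma, Finset.sum_const, card_univ, Fintype.card_fin, smul_eq_mul,
        Fintype.card_bool]
      congr 1
      have : ∀ u : Fin E, q ^ (E - 1 - u) * (h + (g + κ * q ^ (u + 1 : ℕ) + q) + 1) =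
          q ^ (E - 1 - u) * (h + g + q + 1) + κ * q ^ E := by
        intro u
        have hu := u.2
        have e1 : q ^ E = q ^ (E - 1 - u) * q ^ (u + 1 : ℕ) := by
          rw [← pow_add]; congr 1; omega
        rw [e1]; ring
      rw [Finset.sum_congr rfl fun u _ => this u, Finset.sum_add_distrib, ← Finset.sum_mul,
        Finset.sum_const, card_univ, Fintype.card_fin,
        Fin.sum_univ_eq_sum_range (fun u => q ^ (E - 1 - u)) E, Finset.sum_range_reflect (q ^ ·) E,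
        smul_eq_mul])
  set p : (LaurentSeries F)[X] := ∑ k ∈ range M, monomial k (lam k) with hp
  have hco : ∀ i, p.coeff i = if i < M then lam i else 0 := by
    intro i
    rw [hp, finsetSum_coeff]
    simp only [coeff_monomial, Finset.sum_ite_eq', mem_range]
  obtain ⟨r0, hr0, hne⟩ := h2
  have hp0 : p ≠ 0 := fun h0 => hne (by have := hco r0; rw [h0, if_pos hr0] at this; simpa using this.symm)
  have hph : ∀ w, RR F E (ph F E p * w) = ∑ k ∈ range M, lam k * RR F E (TT F ^ k * w) := by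
    intro w
    rw [hp, map_sum, Finset.sum_mul, RR_sum]
    refine Finset.sum_congr rfl fun k _ => ?_
    rw [← C_mul_X_pow_eq_monomial, map_mul, map_pow, ph_C, ph_X, mul_assoc, RR_semi]
  refine ⟨p, hp0, ?_, fun i => ?_, fun b u hu1 huE z => ?_⟩
  · by_contra hc'
    have := hco p.natDegree
    rw [if_neg hc'] at this
    exact hp0 (leadingCoeff_eq_zero.1 this)
  · rw [hco]; split_ifs
    · exact h1 i
    · exact ⟨zero_mem _, by simp⟩
  obtain ⟨u, rfl⟩ : ∃ u', u = u' + 1 := ⟨u - 1, by omega⟩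
  have e1 : q ^ (E - 1 - u) * q ^ (u + 1) = q ^ E := by
    rw [← pow_add]; congr 1; omega
  rw [U_decomp (E - 1 - u) z, frob_sum, Finset.mul_sum, Finset.mul_sum, RR_sum]
  refine Finset.sum_eq_zero fun j hj => ?_
  have h4 := h3 ⟨b, ⟨u, by omega⟩, ⟨j, mem_range.1 hj⟩⟩
  simp only at h4
  have e2 : ph F E p * (G / Den b (u + 1) *
      (th F ^ j * U F (E - 1 - u) j z ^ q ^ (E - 1 - u)) ^ q ^ (u + 1)) =
      (U F (E - 1 - u) j z / Den b (u + 1)) ^ q ^ E *
        (ph F E p * (G * Den b (u + 1) ^ (q ^ E - 1) * (th F ^ j) ^ q ^ (u + 1))) := by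
    have e3 : Den b (u + 1) ^ q ^ E = Den b (u + 1) ^ (q ^ E - 1) * Den b (u + 1) := by
      rw [← pow_succ]; congr 1; omega
    have e4 := (hD b (u + 1) huE.le).2.1
    rw [mul_pow, ← pow_mul (U F (E - 1 - u) j z), e1, div_pow, e3]
    field_simp
  rw [e2, RR_semi, hph, h4, mul_zero]

theorem Tsub_ne {a b : ℕ} (h : b < a) : TT F ^ a - TT F ^ b ≠ 0 := ne_of_v (v_Tsub h)

theorem Dg_add (j E : ℕ) : Dg F (TT F) (j + E) = Dg F (TT F) j ^ (Fintype.card F ^ E) *
    ∏ u ∈ range E, (TT F ^ (Fintype.card F ^ (j + E)) - TT F ^ (Fintype.card F ^ u)) := by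
  rw [Dg, Dg, show range (j + E) = range (E + j) by rw [add_comm], Finset.prod_range_add, mul_comm,
    ← Finset.prod_pow]
  congr 1
  refine Finset.prod_congr rfl fun u _ => ?_
  rw [frob_sub, ← pow_mul, ← pow_mul, ← pow_add, ← pow_add, add_comm u E]

theorem weight_pow {E u i : ℕ} (hu : u < E) (hi : u ≤ i) : ∃ z : LaurentSeries F,
    Lagrange.nodalWeight (range E) (fun v => TT F ^ (Fintype.card F ^ v)) u *
      (TT F ^ (Fintype.card F ^ i) - TT F ^ (Fintype.card F ^ u))⁻¹ =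
    (Dg F (TT F) u)⁻¹ * z ^ (Fintype.card F ^ u) := by
  obtain ⟨φ, hφ⟩ := exists_frob (F := F) u
  have hx : ∀ v, u ≤ v → TT F ^ (Fintype.card F ^ v) ∈ φ.fieldRange := fun v hv =>
    ⟨TT F ^ (Fintype.card F ^ (v - u)), by
      rw [hφ, ← pow_mul, ← pow_add, Nat.sub_add_cancel hv]⟩
  have h1 : ((range E).erase u).filter (· < u) = range u := by
    ext v
    simp only [mem_filter, mem_erase, mem_range]
    omega
  have h2 : (∏ v ∈ ((range E).erase u).filter (fun v => ¬ v < u),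
      (TT F ^ (Fintype.card F ^ u) - TT F ^ (Fintype.card F ^ v))⁻¹) *
      (TT F ^ (Fintype.card F ^ i) - TT F ^ (Fintype.card F ^ u))⁻¹ ∈ φ.fieldRange :=
    mul_mem (prod_mem fun v hv => inv_mem
      (sub_mem (hx u le_rfl) (hx v (not_lt.1 (mem_filter.1 hv).2))))
      (inv_mem (sub_mem (hx i hi) (hx u le_rfl)))
  obtain ⟨z, hz⟩ := h2
  refine ⟨z, ?_⟩
  rw [← hφ z, hz, Lagrange.nodalWeight, ← Finset.prod_filter_mul_prod_filter_not _ (· < u), h1, Dg,
    ← Finset.prod_inv_distrib, mul_assoc]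

/-- Simple fractions: only the pole at `T` survives. -/
theorem pf (E' : ℕ) (H : LaurentSeries F)
    (hk : ∀ v, 1 ≤ v → v < E' + 1 → ∀ z : LaurentSeries F,
      RR F (E' + 1) (H * (lg F (TT F) E' / Dg F (TT F) v * z ^ (Fintype.card F ^ v))) = 0)
    (s : LaurentSeries F) (j : ℕ) :
    RR F (E' + 1) (H * (lg F (TT F) E' *
      (s ^ (Fintype.card F ^ (j + (E' + 1))) / Dg F (TT F) (j + (E' + 1))))) =
      s ^ (Fintype.card F ^ j) / Dg F (TT F) j * RR F (E' + 1)
        (H * ((TT F ^ (Fintype.card F ^ j)) ^ (Fintype.card F ^ (E' + 1)) - TT F)⁻¹) := by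
  set E := E' + 1 with hE
  set x : ℕ → LaurentSeries F := fun v => TT F ^ (Fintype.card F ^ v) with hx
  set y : LaurentSeries F := TT F ^ (Fintype.card F ^ (j + E)) with hy
  have hinj : Set.InjOn x (range E : Finset ℕ) := by
    intro a _ b _ hab
    rcases lt_trichotomy a b with h | h | h
    · exact absurd (sub_eq_zero.2 hab.symm) (Tsub_ne (q_lt h))
    · exact h
    · exact absurd (sub_eq_zero.2 hab) (Tsub_ne (q_lt h))
  have hyx : ∀ u ∈ range E, y - x u ≠ 0 := fun u hu =>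
    Tsub_ne (q_lt (by have := mem_range.1 hu; omega))
  have h0 : (0 : ℕ) ∈ range E := mem_range.2 (by omega)
  have h1 : (∏ u ∈ range E, (y - x u)) *
      ∑ u ∈ range E, Lagrange.nodalWeight (range E) x u * (y - x u)⁻¹ = 1 := by
    have h := congrArg (Polynomial.eval y) (Lagrange.sum_basis hinj ⟨0, h0⟩)
    rw [Polynomial.eval_finsetSum, Polynomial.eval_one] at h
    rw [← h, Finset.mul_sum, ← Lagrange.eval_nodal]
    exact Finset.sum_congr rfl fun u hu =>
      (Lagrange.eval_basis_not_at_node hu (sub_ne_zero.1 (hyx u hu))).symm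
  have h2 : H * (lg F (TT F) E' * (s ^ (Fintype.card F ^ (j + E)) / Dg F (TT F) (j + E))) =
      (s ^ (Fintype.card F ^ j) / Dg F (TT F) j) ^ (Fintype.card F ^ E) *
        ∑ u ∈ range E, H * (lg F (TT F) E' *
          (Lagrange.nodalWeight (range E) x u * (y - x u)⁻¹)) := by
    rw [← Finset.mul_sum, ← Finset.mul_sum, eq_inv_of_mul_eq_one_right h1, Dg_add, div_pow,
      ← pow_mul, ← pow_add, div_eq_mul_inv, div_eq_mul_inv, mul_inv]
    ring
  have h3 : lg F (TT F) E' * Lagrange.nodalWeight (range E) x 0 = 1 := by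
    have h5 : (range E).erase 0 = (range E').map ⟨fun j => j + 1, add_left_injective 1⟩ := by
      ext v
      simp only [mem_erase, mem_range, mem_map, Function.Embedding.coeFn_mk]
      constructor
      · rintro ⟨h6, h7⟩; exact ⟨v - 1, by omega, by omega⟩
      · rintro ⟨a, h6, rfl⟩; omega
    rw [lg, Lagrange.nodalWeight, h5, Finset.prod_map, ← Finset.prod_mul_distrib]
    refine Finset.prod_eq_one fun v _ => ?_
    have h4 := Tsub_ne (F := F) (q_lt (F := F) (show 0 < v + 1 by omega))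
    simp only [hx, pow_zero, pow_one, Function.Embedding.coeFn_mk] at h4 ⊢
    exact mul_inv_cancel₀ fun h => h4 (by linear_combination -h)
  have hy' : y = (TT F ^ (Fintype.card F ^ j)) ^ (Fintype.card F ^ E) := by
    rw [hy, ← pow_mul, ← pow_add]
  have hx0 : x 0 = TT F := by simp [hx]
  rw [h2, RR_semi, RR_sum, Finset.sum_eq_single 0]
  · rw [← mul_assoc (lg F (TT F) E'), h3, one_mul, hx0, hy']
  · intro u hu hu0
    have hu' := mem_range.1 hu
    obtain ⟨z, hz⟩ := weight_pow (F := F) (i := j + E) hu' (by omega)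
    rw [show Lagrange.nodalWeight (range E) x u * (y - x u)⁻¹ = _ from hz,
      ← mul_assoc (lg F (TT F) E'), ← div_eq_mul_inv]
    exact hk u (by omega) hu' z
  · intro h
    exact absurd h0 h

end Pool.Agent.PL
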