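import Mathlib

/-! Carlitz's power sums over monic polynomials of a fixed degree. -/

namespace Pool.Agent.PL

open Finset

set_option linter.unusedSectionVars false

variable (F : Type) [Field F] [Fintype F] {K : Type} [Field K] [Algebra F K]

/-- `D_i = ∏_{u < i} (t^(q^i) - t^(q^u))`. -/
noncomputable def Dg (t : K) (i : ℕ) : K :=
  ∏ u ∈ range i, (t ^ (Fintype.card F ^ i) - t ^ (Fintype.card F ^ u))

/-- `ℓ_d = ∏_{1 ≤ j ≤ d} (t - t^(q^j))`. -/
noncomputable def lg (t : K) (d : ℕ) : K :=
  ∏ j ∈ range d, (t - t ^ (Fintype.card F ^ (j + 1)))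

/-- The value at `x` of the monic polynomial of degree `d` with lower coefficients `f`. -/
noncomputable def mon {R : Type} [CommRing R] [Algebra F R] (x : R) (d : ℕ) (f : Fin d → F) : R :=
  x ^ d + ∑ i : Fin d, algebraMap F R (f i) * x ^ (i : ℕ)

noncomputable def eps (t : K) : ℕ → K → K
  | 0, x => x
  | d + 1, x => eps t d x ^ Fintype.card F - Dg F t d ^ (Fintype.card F - 1) * eps t d x

variable {F}

theorem fr_add (a b : K) : (a + b) ^ Fintype.card F = a ^ Fintype.card F + b ^ Fintype.card F := by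
  have h := map_add (FiniteField.frobeniusAlgHom F K) a b
  simpa only [FiniteField.coe_frobeniusAlgHom] using h

theorem fr_sub (a b : K) : (a - b) ^ Fintype.card F = a ^ Fintype.card F - b ^ Fintype.card F := by
  have h := map_sub (FiniteField.frobeniusAlgHom F K) a b
  simpa only [FiniteField.coe_frobeniusAlgHom] using h

theorem fr_c (c : F) : (algebraMap F K c) ^ Fintype.card F = algebraMap F K c := by
  rw [← map_pow, FiniteField.pow_card]

theorem frn_c (c : F) (i : ℕ) : (algebraMap F K c) ^ (Fintype.card F ^ i) = algebraMap F K c := by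
  rw [← map_pow, FiniteField.pow_card_pow]

theorem frn_sub (a b : K) (i : ℕ) :
    (a - b) ^ (Fintype.card F ^ i) = a ^ (Fintype.card F ^ i) - b ^ (Fintype.card F ^ i) := by
  induction i with
  | zero => simp
  | succ i ih => rw [pow_succ, pow_mul, ih, fr_sub, ← pow_mul, ← pow_mul]

theorem pow_q (a : K) : a ^ Fintype.card F = a ^ (Fintype.card F - 1) * a := by
  rw [← pow_succ]; congr 1
  have : 0 < Fintype.card F := Fintype.card_pos
  omega

theorem Dg_succ (t : K) (d : ℕ) :
    Dg F t (d + 1) = (t ^ (Fintype.card F ^ (d + 1)) - t) * Dg F t d ^ Fintype.card F := by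
  rw [Dg, Finset.prod_range_succ', Dg, ← Finset.prod_pow, mul_comm]
  simp only [pow_zero, pow_one]
  congr 1
  refine Finset.prod_congr rfl fun u _ => ?_
  rw [fr_sub, ← pow_mul, ← pow_mul, ← pow_succ, ← pow_succ]

theorem lg_succ (t : K) (d : ℕ) :
    lg F t (d + 1) = lg F t d * (t - t ^ (Fintype.card F ^ (d + 1))) := by
  rw [lg, Finset.prod_range_succ, ← lg]

theorem eps_add (t : K) (d : ℕ) (x y : K) : eps F t d (x + y) = eps F t d x + eps F t d y := by
  induction d with
  | zero => rfl
  | succ d ih => simp only [eps, ih, fr_add]; ring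

theorem eps_smul (t : K) (d : ℕ) (c : F) (x : K) :
    eps F t d (algebraMap F K c * x) = algebraMap F K c * eps F t d x := by
  induction d with
  | zero => rfl
  | succ d ih => simp only [eps, ih, mul_pow, fr_c]; ring

theorem eps_t (t : K) (d : ℕ) (x : K) : eps F t (d + 1) (t * x) =
    t * eps F t (d + 1) x + (t ^ (Fintype.card F ^ (d + 1)) - t) * eps F t d x ^ Fintype.card F := by
  induction d with
  | zero => simp [eps, Dg, mul_pow]; ring
  | succ d ih =>
    set q := Fintype.card F with hq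
    have hA : eps F t (d + 1) x ^ q =
        (eps F t d x ^ q) ^ q - (Dg F t d ^ (q - 1)) ^ q * eps F t d x ^ q := by
      rw [eps, fr_sub, mul_pow]
    have hb : (t ^ (q ^ (d + 1)) - t) ^ q = t ^ (q ^ (d + 2)) - t ^ q := by
      rw [fr_sub, ← pow_mul, ← pow_succ]
    have hw : Dg F t (d + 1) ^ (q - 1) * (t ^ (q ^ (d + 1)) - t) =
        (t ^ (q ^ (d + 1)) - t) ^ q * (Dg F t d ^ (q - 1)) ^ q := by
      rw [Dg_succ, mul_pow, pow_q (F := F) (t ^ (q ^ (d + 1)) - t), ← pow_mul, ← pow_mul,
        mul_comm (q - 1) q]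
      ring
    rw [eps, ih, fr_add, mul_pow, mul_pow, hb]
    conv_rhs => rw [eps]
    rw [hb] at hw
    linear_combination (t ^ q - t ^ (q ^ (d + 2))) * hA - eps F t d x ^ q * hw

theorem eps_top (t : K) (d : ℕ) : eps F t d (t ^ d) = Dg F t d := by
  induction d with
  | zero => simp [eps, Dg]
  | succ d ih =>
    rw [pow_succ', eps_t, ih, Dg_succ, eps, ih, pow_q (F := F) (Dg F t d)]
    ring

theorem sum_lin_pow (x w : K) {k : ℕ} (hk : k ≤ Fintype.card F - 1) :
    ∑ c : F, (x + algebraMap F K c * w) ^ k =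
      if k = Fintype.card F - 1 then -w ^ k else 0 := by
  classical
  have h1 : ∀ i ≤ k, ∑ c : F, c ^ i = if i = Fintype.card F - 1 then -1 else 0 := by
    intro i hi
    split_ifs with h
    · have h2 : 1 < Fintype.card F := Fintype.one_lt_card
      have h3 : ∑ c : F, c ^ i = ∑ c ∈ univ.erase (0 : F), c ^ i := by
        rw [← Finset.add_sum_erase _ _ (mem_univ (0 : F)), zero_pow (by omega), zero_add]
      rw [h3, Finset.sum_congr rfl (g := fun _ => (1 : F)) fun c hc => by
        rw [h]; exact FiniteField.pow_card_sub_one_eq_one c (ne_of_mem_erase hc)]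
      rw [sum_const, card_erase_of_mem (mem_univ _), card_univ, nsmul_one,
        Nat.cast_sub h2.le, FiniteField.cast_card_eq_zero]
      simp
    · exact FiniteField.sum_pow_lt_card_sub_one F i (by omega)
  have h2 : ∑ c : F, (x + algebraMap F K c * w) ^ k =
      ∑ i ∈ range (k + 1), algebraMap F K (∑ c : F, c ^ i) * (w ^ i * x ^ (k - i) * k.choose i) := by
    simp only [add_comm x, add_pow, map_sum, Finset.sum_mul]
    rw [Finset.sum_comm]
    refine Finset.sum_congr rfl fun i _ => Finset.sum_congr rfl fun c _ => ?_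
    rw [mul_pow, map_pow]; ring
  rw [h2, Finset.sum_range_succ, Finset.sum_eq_zero, zero_add, h1 k le_rfl]
  · split_ifs <;> simp
  · intro i hi
    have := mem_range.1 hi
    rw [h1 i this.le, if_neg (by omega), map_zero, zero_mul]

theorem lin_norm (x w : K) (c : F) :
    (x + algebraMap F K c * w) ^ Fintype.card F -
      w ^ (Fintype.card F - 1) * (x + algebraMap F K c * w) =
    x ^ Fintype.card F - w ^ (Fintype.card F - 1) * x := by
  rw [fr_add, mul_pow, fr_c, pow_q (F := F) w]; ring

theorem lin_ne {x w : K} (h : x ^ Fintype.card F - w ^ (Fintype.card F - 1) * x ≠ 0) (c : F) :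
    x + algebraMap F K c * w ≠ 0 := by
  intro h0
  apply h
  rw [← lin_norm x w c, h0, zero_pow Fintype.card_pos.ne']; simp

theorem sum_inv_pow {x w : K} (h : x ^ Fintype.card F - w ^ (Fintype.card F - 1) * x ≠ 0)
    {m : ℕ} (hm : m + 1 ≤ Fintype.card F) :
    ∑ c : F, 1 / (x + algebraMap F K c * w) ^ (m + 1) =
      (-w ^ (Fintype.card F - 1) / (x ^ Fintype.card F - w ^ (Fintype.card F - 1) * x)) ^ (m + 1) := by
  set q := Fintype.card F with hq
  set N := x ^ q - w ^ (q - 1) * x with hN
  have key : ∀ m, m + 1 ≤ q → ∑ c : F, 1 / (x + algebraMap F K c * w) ^ (m + 1) =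
      -w ^ (q - 1) / N * ∑ c : F, 1 / (x + algebraMap F K c * w) ^ m +
        1 / N * ∑ c : F, (x + algebraMap F K c * w) ^ (q - 1 - m) := by
    intro m hm
    rw [Finset.mul_sum, Finset.mul_sum, ← Finset.sum_add_distrib]
    refine Finset.sum_congr rfl fun c _ => ?_
    have h1 := lin_norm x w c
    have h2 := lin_ne h c
    generalize x + algebraMap F K c * w = y at h1 h2 ⊢
    have h3 : y ^ q = y ^ (q - 1 - m) * y ^ (m + 1) := by rw [← pow_add]; congr 1; omega
    rw [← hq, ← hN, h3] at h1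
    have h4 : -w ^ (q - 1) / N * (1 / y ^ m) + 1 / N * y ^ (q - 1 - m) =
        (y ^ (q - 1 - m) * y ^ (m + 1) - w ^ (q - 1) * y) / (N * y ^ (m + 1)) := by
      field_simp
      ring
    rw [h4, h1]
    field_simp
  induction m with
  | zero =>
    rw [key 0 hm, Nat.sub_zero, sum_lin_pow x w le_rfl, if_pos rfl]
    simp only [pow_zero, div_one, sum_const, card_univ, nsmul_one, zero_add, pow_one]
    rw [show ((Fintype.card F : ℕ) : K) = 0 by
      rw [← map_natCast (algebraMap F K), FiniteField.cast_card_eq_zero, map_zero]]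
    ring
  | succ m ih =>
    rw [key (m + 1) hm, ih (by omega), sum_lin_pow x w (by omega), if_neg (by omega)]
    ring

theorem sum_low {t : K} (hl : ∀ d, lg F t d ≠ 0) {m : ℕ} (hm : m + 1 ≤ Fintype.card F) (d : ℕ) :
    ∀ x : K, eps F t d x ≠ 0 →
      ∑ f : Fin d → F, 1 / (x + ∑ i : Fin d, algebraMap F K (f i) * t ^ (i : ℕ)) ^ (m + 1) =
        (Dg F t d / lg F t d / eps F t d x) ^ (m + 1) := by
  induction d with
  | zero => intro x _; simp [eps, Dg, lg]
  | succ d ih =>
    intro x hx
    rw [eps] at hx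
    rw [← (Fin.snocEquiv fun _ => F).sum_comp, Fintype.sum_prod_type]
    have h1 : ∀ c : F, ∑ f : Fin d → F, 1 / (x + ∑ i : Fin (d + 1),
        algebraMap F K ((Fin.snocEquiv fun _ => F) (c, f) i) * t ^ (i : ℕ)) ^ (m + 1) =
        (Dg F t d / lg F t d) ^ (m + 1) *
          (1 / (eps F t d x + algebraMap F K c * Dg F t d) ^ (m + 1)) := by
      intro c
      have h2 : eps F t d (x + algebraMap F K c * t ^ d) =
          eps F t d x + algebraMap F K c * Dg F t d := by rw [eps_add, eps_smul, eps_top]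
      have h3 := ih (x + algebraMap F K c * t ^ d) (by rw [h2]; exact lin_ne hx c)
      rw [h2, div_pow, div_eq_mul_one_div] at h3
      rw [← h3]
      refine Finset.sum_congr rfl fun f _ => ?_
      rw [Fin.sum_univ_castSucc]
      simp only [Fin.snocEquiv, Equiv.coe_fn_mk, Fin.snoc_castSucc, Fin.snoc_last,
        Fin.val_castSucc, Fin.val_last]
      congr 2; ring
    rw [Finset.sum_congr rfl fun c _ => h1 c, ← Finset.mul_sum, sum_inv_pow hx hm, ← mul_pow, eps,
      Dg_succ]
    congr 1
    have h4 := hl (d + 1)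
    rw [lg_succ] at h4 ⊢
    have h5 := left_ne_zero_of_mul h4
    have h6 := right_ne_zero_of_mul h4
    rw [pow_q (F := F) (Dg F t d)]
    field_simp
    ring

theorem sum_mon {t : K} (hl : ∀ d, lg F t d ≠ 0) (hD : ∀ d, Dg F t d ≠ 0) {n : ℕ} (hn0 : 1 ≤ n)
    (hn : n ≤ Fintype.card F) (d : ℕ) :
    ∑ f : Fin d → F, 1 / mon F t d f ^ n = 1 / lg F t d ^ n := by
  obtain ⟨m, rfl⟩ : ∃ m, n = m + 1 := ⟨n - 1, by omega⟩
  have h := sum_low hl hn d (t ^ d) (by rw [eps_top]; exact hD d)
  rw [eps_top] at h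
  simp only [mon]
  rw [h, ← one_div_pow]
  congr 1
  have := hD d
  have := hl d
  field_simp

/-- `∏_{1 ≤ j ≤ d} t^(q^j) / (t^(q^j) - t)`. -/
noncomputable def pig (t : K) (d : ℕ) : K :=
  ∏ j ∈ range d, t ^ (Fintype.card F ^ (j + 1)) / (t ^ (Fintype.card F ^ (j + 1)) - t)

theorem eps_inv {t : K} (ht : t ≠ 0) (hl : ∀ d, lg F t d ≠ 0) (d : ℕ) :
    eps F t d t⁻¹ * (t * pig (F := F) t d * lg F t d) = Dg F t d := by
  have key : ∀ d, eps F t d t⁻¹ * (t * ∏ j ∈ range d, -t ^ (Fintype.card F ^ (j + 1))) =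
      Dg F t d := by
    intro d
    induction d with
    | zero => simp [eps, Dg, ht]
    | succ d ih =>
      set q := Fintype.card F with hq
      have h1 : (t * ∏ j ∈ range d, -t ^ (q ^ (j + 1))) ^ q =
          -∏ j ∈ range (d + 1), -t ^ (q ^ (j + 1)) := by
        have hneg : ∀ a : K, (-a) ^ q = -a ^ q := fun a => by
          have := fr_sub (F := F) 0 a
          rwa [zero_sub, zero_pow Fintype.card_pos.ne', zero_sub] at this
        rw [Finset.prod_range_succ', mul_pow, ← Finset.prod_pow]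
        simp only [hneg, ← pow_mul, ← pow_succ, zero_add, pow_one]
        ring
      have h2 := congrArg (· ^ q) ih
      simp only [mul_pow (eps F t d t⁻¹), h1] at h2
      rw [eps, Dg_succ, ← hq]
      have h3 := pow_q (F := F) (Dg F t d)
      rw [Finset.prod_range_succ] at h2 ⊢
      rw [← hq] at h3
      linear_combination (-t) * h2 + Dg F t d ^ (q - 1) * t ^ (q ^ (d + 1)) * ih -
        t ^ (q ^ (d + 1)) * h3
  rw [← key d, pig, lg, mul_assoc t, ← Finset.prod_mul_distrib]
  congr 2
  refine Finset.prod_congr rfl fun j hj => ?_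
  have h4 := hl (j + 1)
  rw [lg_succ] at h4
  have h5 : t ^ (Fintype.card F ^ (j + 1)) - t ≠ 0 := fun h =>
    right_ne_zero_of_mul h4 (by linear_combination -h)
  field_simp
  ring

theorem pig_ne {t : K} (ht : t ≠ 0) (hl : ∀ d, lg F t d ≠ 0) (d : ℕ) : pig (F := F) t d ≠ 0 := by
  refine Finset.prod_ne_zero_iff.2 fun j _ => div_ne_zero (pow_ne_zero _ ht) fun h => ?_
  have h4 := hl (j + 1)
  rw [lg_succ] at h4
  exact right_ne_zero_of_mul h4 (by linear_combination -h)

theorem sum_chi0 {t : K} (ht : t ≠ 0) (hl : ∀ d, lg F t d ≠ 0) (hD : ∀ d, Dg F t d ≠ 0) {n : ℕ}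
    (hn0 : 1 ≤ n) (hn : n ≤ Fintype.card F) (d : ℕ) :
    ∑ f : Fin (d + 1) → F, algebraMap F K (f 0 ^ n) / mon F t (d + 1) f ^ n =
      pig (F := F) t (d + 1) ^ n - pig (F := F) t d ^ n := by
  classical
  obtain ⟨m, rfl⟩ : ∃ m, n = m + 1 := ⟨n - 1, by omega⟩
  set u := eps F t d t⁻¹ with hu
  have e1 := eps_inv ht hl d
  have e2 := eps_inv ht hl (d + 1)
  have hu1 : u ^ Fintype.card F - Dg F t d ^ (Fintype.card F - 1) * u ≠ 0 := by
    intro h
    apply hD (d + 1)
    rw [← e2, eps, h, zero_mul]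
  have hu0 : u ≠ 0 := by simpa using lin_ne hu1 0
  rw [← (Fin.consEquiv fun _ => F).sum_comp, Fintype.sum_prod_type]
  have h1 : ∀ c : F, ∑ f : Fin d → F,
      algebraMap F K (((Fin.consEquiv fun _ => F) (c, f)) 0 ^ (m + 1)) /
        mon F t (d + 1) ((Fin.consEquiv fun _ => F) (c, f)) ^ (m + 1) =
      (Dg F t d / lg F t d / t) ^ (m + 1) *
        ((1 / (u + algebraMap F K c⁻¹ * Dg F t d) ^ (m + 1)) -
          if c = 0 then 1 / u ^ (m + 1) else 0) := by
    intro c
    by_cases hc : c = 0
    · simp [hc, Fin.consEquiv]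
    have hc' : algebraMap F K c ≠ 0 := by simpa using hc
    have h2 : eps F t d (algebraMap F K c * t⁻¹ + t ^ d) =
        algebraMap F K c * (u + algebraMap F K c⁻¹ * Dg F t d) := by
      rw [eps_add, eps_smul, eps_top, map_inv₀, ← hu]; field_simp
    have h4 := lin_ne hu1 c⁻¹
    have h3 := sum_low hl hn d (algebraMap F K c * t⁻¹ + t ^ d)
      (by rw [h2]; exact mul_ne_zero hc' h4)
    rw [h2] at h3
    have h5 : ∀ f : Fin d → F, mon F t (d + 1) ((Fin.consEquiv fun _ => F) (c, f)) =
        t * (algebraMap F K c * t⁻¹ + t ^ d + ∑ i : Fin d, algebraMap F K (f i) * t ^ (i : ℕ)) := by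
      intro f
      rw [mon, Fin.sum_univ_succ, mul_add, mul_add, Finset.mul_sum]
      simp only [Fin.consEquiv, Equiv.coe_fn_mk, Fin.cons_zero, Fin.cons_succ, Fin.val_zero,
        Fin.val_succ, pow_zero, mul_one]
      rw [Finset.sum_congr rfl (g := fun i : Fin d => t * (algebraMap F K (f i) * t ^ (i : ℕ)))
        fun i _ => by ring]
      field_simp
      ring
    simp only [h5]
    rw [if_neg hc, sub_zero, Finset.sum_congr rfl (g := fun f : Fin d → F =>
      (algebraMap F K c / t) ^ (m + 1) * (1 / (algebraMap F K c * t⁻¹ + t ^ d +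
        ∑ i : Fin d, algebraMap F K (f i) * t ^ (i : ℕ)) ^ (m + 1))) fun f _ => by
          simp only [Fin.consEquiv, Equiv.coe_fn_mk, Fin.cons_zero, map_pow, mul_pow, div_pow]
          rw [div_mul_div_comm, mul_one],
      ← Finset.mul_sum, h3, ← one_div_pow, ← mul_pow, ← mul_pow]
    congr 1
    have := hl d
    field_simp
  rw [Finset.sum_congr rfl fun c _ => h1 c, ← Finset.mul_sum, Finset.sum_sub_distrib,
    Finset.sum_ite_eq' univ (0 : F), if_pos (mem_univ _),
    show ∑ c : F, 1 / (u + algebraMap F K c⁻¹ * Dg F t d) ^ (m + 1) = _ from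
      Equiv.sum_comp (Equiv.inv F) fun c => 1 / (u + algebraMap F K c * Dg F t d) ^ (m + 1),
    sum_inv_pow hu1 hn, mul_sub, ← one_div_pow, ← mul_pow, ← mul_pow]
  have h6 := hl d
  have h7 := hl (d + 1)
  have h8 := pig_ne ht hl d
  have h9 := pig_ne ht hl (d + 1)
  congr 2
  · rw [eps, ← hu, Dg_succ, lg_succ, pow_q (F := F) (Dg F t d)] at e2
    rw [lg_succ] at h7
    have h10 := right_ne_zero_of_mul h7
    field_simp
    apply mul_left_cancel₀ h10
    linear_combination (-1 : K) * e2
  · field_simp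
    linear_combination (-1 : K) * e1

open Polynomial in
theorem exists_shift (c : F) (d : ℕ) : ∃ e : (Fin d → F) ≃ (Fin d → F), ∀ f,
    ∀ (R : Type) [CommRing R] [Algebra F R] (x : R),
      mon F x d f = mon F (x - algebraMap F R c) d (e f) := by
  classical
  have h1 : ∀ (f : Fin d → F) (R : Type) [CommRing R] [Algebra F R] (x : R),
      mon F x d f = aeval x (mon F (X : F[X]) d f) := by
    intro f R _ _ x
    simp [mon]
  have hdeg : ∀ f : Fin d → F,
      (∑ i : Fin d, algebraMap F F[X] (f i) * X ^ (i : ℕ)).degree < (d : WithBot ℕ) := fun f =>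
    Polynomial.degree_sum_fin_lt f
  have h2 : ∀ f : Fin d → F, (mon F (X : F[X]) d f).Monic := fun f =>
    Polynomial.monic_X_pow_add (hdeg f)
  have h3 : ∀ f : Fin d → F, (mon F (X : F[X]) d f).natDegree = d := fun f => by
    rw [mon, Polynomial.natDegree_add_eq_left_of_degree_lt (by rw [degree_X_pow]; exact hdeg f),
      natDegree_X_pow]
  have h4 : ∀ (f : Fin d → F) (i : Fin d), (mon F (X : F[X]) d f).coeff i = f i := by
    intro f i
    rw [mon, coeff_add, coeff_X_pow, if_neg i.2.ne, zero_add, finsetSum_coeff,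
      Finset.sum_eq_single i]
    · simp
    · intro j _ hj
      rw [Polynomial.algebraMap_apply, coeff_C_mul, coeff_X_pow, if_neg, mul_zero]
      exact fun h => hj (Fin.ext h.symm)
    · intro h; exact absurd (mem_univ i) h
  let g : (Fin d → F) → Fin d → F := fun f i => (taylor c (mon F (X : F[X]) d f)).coeff i
  have h5 : ∀ f, mon F (X : F[X]) d (g f) = taylor c (mon F (X : F[X]) d f) := by
    intro f
    have hm : (taylor c (mon F (X : F[X]) d f)).Monic := by
      rw [Monic, leadingCoeff_taylor]; exact h2 f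
    conv_rhs => rw [hm.as_sum, natDegree_taylor, h3]
    rw [mon, ← Fin.sum_univ_eq_sum_range
      (fun i => C ((taylor c (mon F (X : F[X]) d f)).coeff i) * X ^ i) d]
    rfl
  have h6 : Function.Injective g := by
    intro f f' h
    have h7 : mon F (X : F[X]) d f = mon F (X : F[X]) d f' :=
      taylor_injective c (by rw [← h5, ← h5, h])
    funext i
    rw [← h4 f i, h7, h4]
  refine ⟨Equiv.ofBijective g (Finite.injective_iff_bijective.1 h6), fun f R _ _ x => ?_⟩
  rw [Equiv.ofBijective_apply, h1 (g f), h5, h1 f, taylor_apply, aeval_comp]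
  simp

theorem lg_shift (t : K) (c : F) (d : ℕ) : lg F (t - algebraMap F K c) d = lg F t d :=
  Finset.prod_congr rfl fun j _ => by rw [frn_sub, frn_c]; ring

theorem Dg_shift (t : K) (c : F) (d : ℕ) : Dg F (t - algebraMap F K c) d = Dg F t d :=
  Finset.prod_congr rfl fun j _ => by rw [frn_sub, frn_sub, frn_c, frn_c]; ring

theorem sum_chi {t : K} (c : F) (ht : t - algebraMap F K c ≠ 0) (hl : ∀ d, lg F t d ≠ 0)
    (hD : ∀ d, Dg F t d ≠ 0) {n : ℕ} (hn0 : 1 ≤ n) (hn : n ≤ Fintype.card F) (B : ℕ) :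
    ∑ d ∈ range (B + 1), ∑ f : Fin d → F, algebraMap F K (mon F c d f ^ n) / mon F t d f ^ n =
      pig (F := F) (t - algebraMap F K c) B ^ n := by
  induction B with
  | zero => simp [mon, pig]
  | succ B ih =>
    rw [Finset.sum_range_succ, ih]
    obtain ⟨e, he⟩ := exists_shift c (B + 1)
    have h := sum_chi0 ht (fun d => by rw [lg_shift]; exact hl d)
      (fun d => by rw [Dg_shift]; exact hD d) hn0 hn B
    rw [← e.sum_comp] at h
    rw [Finset.sum_congr rfl (g := fun f => algebraMap F K (e f 0 ^ n) /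
      mon F (t - algebraMap F K c) (B + 1) (e f) ^ n) fun f _ => ?_, h]
    · ring
    · rw [he f K t, he f F c]
      congr 3
      simp [mon, Fin.sum_univ_succ]

end Pool.Agent.PL
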